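import Pool.Agent.Lib.MP_9f2731_nt.QL.Aw.Spec

/-!
MP_9f2731_nt, QL/Aw, module GnV: mean values over b of products of the majorant.
-/

namespace Pool.Agent.Lib.MP_9f2731_nt.QL.Aw

open Finset
open Pool.Agent.Lib.MP_9f2731_nt.GP
open Pool.Agent.Lib.MP_9f2731_nt.GP.Rel
open Pool.Agent.Lib.MP_9f2731_nt.GP.Asm (eb)
open Pool.Agent.Lib.MP_9f2731_nt.QL

namespace GnVAux

theorem dbl_eq {ι : Type} [DecidableEq ι] (I : Finset ι) (F : ι → ι → ℝ) :
    ∑ i ∈ I, ∑ i' ∈ I.erase i, F i i'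
      = ∑ p ∈ (I ×ˢ I).filter (fun p => p.2 ≠ p.1), F p.1 p.2 := by
  rw [Finset.sum_filter, Finset.sum_product]
  refine Finset.sum_congr rfl fun i _ => ?_
  rw [← Finset.filter_ne', Finset.sum_filter]

theorem dbl_nonneg {ι : Type} [DecidableEq ι] (I : Finset ι) (F : ι → ι → ℝ)
    (hF : ∀ i i', 0 ≤ F i i') : 0 ≤ ∑ i ∈ I, ∑ i' ∈ I.erase i, F i i' :=
  Finset.sum_nonneg fun i _ => Finset.sum_nonneg fun i' _ => hF i i'

theorem prod_le {ι : Type} (s : Finset ι) (a : ι → ℝ) (J : ℕ)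
    (ha : ∀ i ∈ s, 0 ≤ a i) (hs : s.card ≤ J) : ∏ i ∈ s, a i ≤ 1 + ∑ i ∈ s, a i ^ J := by
  rcases s.eq_empty_or_nonempty with rfl | hne
  · simp
  obtain ⟨i0, hi0, hmax⟩ := Finset.exists_max_image s a hne
  have h1 : ∏ i ∈ s, a i ≤ a i0 ^ s.card := by
    calc ∏ i ∈ s, a i ≤ ∏ i ∈ s, a i0 := Finset.prod_le_prod ha hmax
      _ = _ := by simp
  have hsum : a i0 ^ J ≤ ∑ i ∈ s, a i ^ J :=
    Finset.single_le_sum (f := fun i => a i ^ J) (fun i hi => pow_nonneg (ha i hi) J) hi0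
  rcases le_total (a i0) 1 with h | h
  · have h2 : a i0 ^ s.card ≤ 1 := pow_le_one₀ (ha i0 hi0) h
    have h3 : 0 ≤ a i0 ^ J := pow_nonneg (ha i0 hi0) J
    linarith
  · have := pow_le_pow_right₀ h hs
    linarith

theorem nu_nonneg {V : ℕ} {κ : ℝ} {X : ℕ} (hκ : 0 < κ) (hX : 1 ≤ X) (n : ℕ) :
    0 ≤ nuV V ((X : ℝ) ^ κ) n := by
  unfold nuV
  have hX' : (1 : ℝ) ≤ X := by exact_mod_cast hX
  have h1 : 0 ≤ Real.log ((X : ℝ) ^ κ) :=
    Real.log_nonneg (Real.one_le_rpow hX' hκ.le)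
  have h3 : 0 ≤ (V.totient / V : ℝ) := by positivity
  have h4 : 0 ≤ (Lam 2 ((X : ℝ) ^ κ) n) ^ 2 := sq_nonneg _
  exact mul_nonneg (mul_nonneg (mul_nonneg h3 h1) (by norm_num)) h4

theorem pointwise {J V : ℕ} {κ C3 θ : ℝ} {T : ℕ} {q : Fin T → ℕ} {X M : ℕ} [NeZero M]
    (hκ : 0 < κ) (hθ : 0 < θ) (hX : 1 ≤ X) (hC3 : 0 < C3)
    (hL1 : 1 ≤ Real.log X) (hL : (J : ℝ) * C3 + 2 ≤ Real.log X)
    (hcor : ∀ S : Finset (Fin T → ZMod M), S.card ≤ J →
      |(∑ b ∈ Icc 1 X, ∏ m ∈ S.image (mltv q), nuV V ((X : ℝ) ^ κ) (V * b * m + 1)) / X - 1| ≤ θ)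
    (hmom : ∀ x : Fin T → ZMod M,
      (∑ b ∈ Icc 1 X, (nuV V ((X : ℝ) ^ κ) (V * b * mltv q x + 1)) ^ J) / X ≤
        C3 * (Real.log X) ^ C3)
    (hinj : Function.Injective (fun x : Fin T → ZMod M => mltv q x))
    {ι : Type} [DecidableEq ι] (I : Finset ι) (hI : I.card ≤ J)
    (x : ι → (Fin T → ZMod M)) :
    |eb X (fun b => ∏ i ∈ I, nuv V κ q X b (x i)) - 1|
      ≤ θ + (Real.log X) ^ (C3 + 1)
          * ∑ i ∈ I, ∑ i' ∈ I.erase i, (if x i = x i' then (1 : ℝ) else 0) := by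
  classical
  have hX0 : (0 : ℝ) < X := by exact_mod_cast hX
  have hL0 : (0 : ℝ) < Real.log X := by linarith
  have hEq : ∀ i i', (0 : ℝ) ≤ (if x i = x i' then (1 : ℝ) else 0) := by
    intro i i'
    split_ifs <;> norm_num
  have hB := dbl_nonneg I (fun i i' => (if x i = x i' then (1 : ℝ) else 0)) hEq
  have hP : 0 ≤ (Real.log X) ^ (C3 + 1) := by positivity
  by_cases hj : Set.InjOn x I
  · -- injective case
    have hmj : Set.InjOn (mltv q) (I.image x) := fun u _ v _ h => hinj h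
    have hSc : (I.image x).card ≤ J := Finset.card_image_le.trans hI
    have h1 := hcor (I.image x) hSc
    have hpe : ∀ b, ∏ m ∈ (I.image x).image (mltv q), nuV V ((X : ℝ) ^ κ) (V * b * m + 1)
        = ∏ i ∈ I, nuv V κ q X b (x i) := by
      intro b
      rw [Finset.prod_image hmj, Finset.prod_image hj]
      rfl
    simp only [hpe] at h1
    have h5 := mul_nonneg hP hB
    unfold eb
    linarith
  · -- a coincidence
    have hco : ∃ i ∈ I, ∃ i' ∈ I, i ≠ i' ∧ x i = x i' := by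
      by_contra hcon
      push Not at hcon
      refine hj fun i hi i' hi' h => ?_
      by_contra hne
      exact hcon i hi i' hi' hne h
    obtain ⟨i, hi, i', hi', hne, hxx⟩ := hco
    have hone : (1 : ℝ) ≤ ∑ i ∈ I, ∑ i' ∈ I.erase i, (if x i = x i' then (1 : ℝ) else 0) := by
      rw [dbl_eq]
      have hmem : (i, i') ∈ (I ×ˢ I).filter (fun p => p.2 ≠ p.1) := by
        simp only [Finset.mem_filter, Finset.mem_product]
        exact ⟨⟨hi, hi'⟩, fun h => hne h.symm⟩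
      have h := Finset.single_le_sum (f := fun p : ι × ι => (if x p.1 = x p.2 then (1 : ℝ) else 0))
        (fun p _ => hEq p.1 p.2) hmem
      simp only [hxx, if_true] at h
      exact h
    have hnn : ∀ b i, 0 ≤ nuv V κ q X b (x i) := fun b i => nu_nonneg hκ hX _
    have h1 : eb X (fun b => ∏ i ∈ I, nuv V κ q X b (x i))
        ≤ 1 + J * (C3 * (Real.log X) ^ C3) := by
      unfold eb
      have h2 : ∑ b ∈ Icc 1 X, ∏ i ∈ I, nuv V κ q X b (x i)
          ≤ ∑ b ∈ Icc 1 X, (1 + ∑ i ∈ I, nuv V κ q X b (x i) ^ J) :=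
        Finset.sum_le_sum fun b _ => prod_le I _ J (fun i _ => hnn b i) hI
      have h3 : ∑ b ∈ Icc 1 X, (1 + ∑ i ∈ I, nuv V κ q X b (x i) ^ J)
          = X + ∑ i ∈ I, ∑ b ∈ Icc 1 X, nuv V κ q X b (x i) ^ J := by
        rw [Finset.sum_add_distrib, Finset.sum_comm]
        simp
      rw [h3] at h2
      have hLp : 0 ≤ C3 * (Real.log X) ^ C3 := by positivity
      calc (∑ b ∈ Icc 1 X, ∏ i ∈ I, nuv V κ q X b (x i)) / X
          ≤ (X + ∑ i ∈ I, ∑ b ∈ Icc 1 X, nuv V κ q X b (x i) ^ J) / X :=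
            div_le_div_of_nonneg_right h2 hX0.le
        _ = 1 + ∑ i ∈ I, (∑ b ∈ Icc 1 X, nuv V κ q X b (x i) ^ J) / X := by
            rw [add_div, div_self hX0.ne', Finset.sum_div]
        _ ≤ 1 + ∑ i ∈ I, C3 * (Real.log X) ^ C3 := by
            gcongr with i _
            exact hmom (x i)
        _ = 1 + I.card * (C3 * (Real.log X) ^ C3) := by simp
        _ ≤ 1 + J * (C3 * (Real.log X) ^ C3) := by
            gcongr
    have h0 : 0 ≤ eb X (fun b => ∏ i ∈ I, nuv V κ q X b (x i)) := by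
      unfold eb
      exact div_nonneg (Finset.sum_nonneg fun b _ => Finset.prod_nonneg fun i _ => hnn b i) hX0.le
    have hpow : (1 : ℝ) ≤ (Real.log X) ^ C3 := Real.one_le_rpow hL1 hC3.le
    have hJC : 0 ≤ (J : ℝ) * C3 := by positivity
    have h4 : 2 + J * (C3 * (Real.log X) ^ C3) ≤ (Real.log X) ^ (C3 + 1) := by
      rw [Real.rpow_add hL0, Real.rpow_one]
      calc 2 + J * (C3 * (Real.log X) ^ C3) ≤ ((J : ℝ) * C3 + 2) * (Real.log X) ^ C3 := by
            nlinarith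
        _ ≤ Real.log X * (Real.log X) ^ C3 := mul_le_mul_of_nonneg_right hL (by positivity)
        _ = _ := by ring
    have h5 : |eb X (fun b => ∏ i ∈ I, nuv V κ q X b (x i)) - 1|
        ≤ 2 + J * (C3 * (Real.log X) ^ C3) := by
      have h6 : 0 ≤ J * (C3 * (Real.log X) ^ C3) := by positivity
      rw [abs_le]
      constructor <;> linarith
    have h6 : (Real.log X) ^ (C3 + 1) ≤ (Real.log X) ^ (C3 + 1)
        * ∑ i ∈ I, ∑ i' ∈ I.erase i, (if x i = x i' then (1 : ℝ) else 0) := by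
      nlinarith
    linarith

theorem av_mono {Y : Type} [Fintype Y] {f g : Y → ℝ} (h : ∀ y, f y ≤ g y) : av f ≤ av g := by
  unfold av
  exact div_le_div_of_nonneg_right (Finset.sum_le_sum fun y _ => h y) (Nat.cast_nonneg _)

theorem av_add {Y : Type} [Fintype Y] (f g : Y → ℝ) : av (fun y => f y + g y) = av f + av g := by
  unfold av
  rw [Finset.sum_add_distrib, add_div]

theorem av_mul {Y : Type} [Fintype Y] (c : ℝ) (g : Y → ℝ) :
    av (fun y => c * g y) = c * av g := by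
  unfold av
  rw [← Finset.mul_sum, mul_div_assoc]

theorem av_const {Y : Type} [Fintype Y] [Nonempty Y] (c : ℝ) : av (fun _ : Y => c) = c := by
  unfold av
  have : (0 : ℝ) < Fintype.card Y := by exact_mod_cast Fintype.card_pos
  simp

theorem av_sum {Y ι : Type} [Fintype Y] (s : Finset ι) (f : ι → Y → ℝ) :
    av (fun y => ∑ i ∈ s, f i y) = ∑ i ∈ s, av (f i) := by
  unfold av
  rw [Finset.sum_comm, Finset.sum_div]

theorem eb_av {Y : Type} [Fintype Y] (X : ℕ) (F : ℕ → Y → ℝ) :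
    eb X (fun b => av (F b)) = av (fun y => eb X (fun b => F b y)) := by
  unfold eb av
  rw [← Finset.sum_div, ← Finset.sum_div, Finset.sum_comm, div_right_comm]

end GnVAux

open GnVAux in
theorem pGnV (hCor : CorVStmt) (hMom : MomVStmt) (hMlV : MlVStmt) (hGro : GroStmt)
    (hSgV : SgVStmt) : GnVStmt := by
  intro J hJ
  obtain ⟨κ, C1, hκ, hJκ, hC1, hcor⟩ := hCor J
  obtain ⟨C3, hC3, hmom⟩ := hMom J
  have hJ' : (1 : ℝ) ≤ J := by exact_mod_cast hJ
  refine ⟨κ, C3 + 1, hκ, by nlinarith, by linarith, ?_⟩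
  intro θ hθ
  have hη0 : 0 < θ / (4 * C1) := by positivity
  obtain ⟨w1, hw1⟩ := hSgV J C1 (θ / (4 * C1)) hC1 hη0
  obtain ⟨W, hW⟩ : ∃ W : ℕ, W = max (max 1 ⌈4 * C1 / θ⌉₊) w1 := ⟨_, rfl⟩
  have hW1 : 1 ≤ W := by rw [hW]; exact (le_max_left _ _).trans (le_max_left _ _)
  have hW2 : 4 * C1 / θ ≤ W := by
    rw [hW]
    exact (Nat.le_ceil _).trans (by exact_mod_cast (le_max_right _ _).trans (le_max_left _ _))
  have hW3 : w1 ≤ W := by rw [hW]; exact le_max_right _ _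
  refine ⟨W, ?_⟩
  intro A E hA hE
  obtain ⟨X1, hX1⟩ := hw1 A E hA hE W hW3
  have hA' : (1 : ℝ) ≤ A := by exact_mod_cast hA
  obtain ⟨X2, hX2⟩ := hGro A E W 3 1 (min 1 (θ / (4 * C1))) (-1) hA hE one_pos
    (lt_min one_pos hη0) (by linarith)
  refine ⟨max (max X1 X2) (max C1 (Real.exp (max 1 ((J : ℝ) * C3 + 2)))), ?_⟩
  intro X hX T M w p0 V _ q hscl Y _ _ ι _ I ψ hI
  have hXa : X1 ≤ X := ((le_max_left _ _).trans (le_max_left _ _)).trans hX
  have hXb : X2 ≤ X := ((le_max_right _ _).trans (le_max_left _ _)).trans hX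
  have hXc : C1 ≤ X := ((le_max_left _ _).trans (le_max_right _ _)).trans hX
  have hXd : Real.exp (max 1 ((J : ℝ) * C3 + 2)) ≤ X :=
    ((le_max_right _ _).trans (le_max_right _ _)).trans hX
  have hXp : (0 : ℝ) < X := lt_of_lt_of_le (Real.exp_pos _) hXd
  have hLL : max 1 ((J : ℝ) * C3 + 2) ≤ Real.log X := (Real.le_log_iff_exp_le hXp).2 hXd
  have hL1 : 1 ≤ Real.log X := (le_max_left _ _).trans hLL
  have hL2 : (J : ℝ) * C3 + 2 ≤ Real.log X := (le_max_right _ _).trans hLL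
  have hX1' : 1 ≤ X := by exact_mod_cast hXp
  obtain ⟨g1, g2, g3, g4, g5, g6, g7, g8, g9, g10, -⟩ := hX2 X hXb T M w p0 V q hscl
  obtain ⟨m1, m2, -⟩ := hMlV T q (fun j => (hscl.hq j).1) hscl.hqi M
  have hsm := m2 V g7
  have hη1 : min 1 (θ / (4 * C1)) ≤ 1 := min_le_left _ _
  have hη2 : min 1 (θ / (4 * C1)) ≤ θ / (4 * C1) := min_le_right _ _
  have hL0 : 0 < Real.log X := by linarith
  have hlog : (1 + Real.log V) ^ 6 ≤ Real.log X :=
    g10.trans (by nlinarith)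
  have hcor' : ∀ S : Finset (Fin T → ZMod M), S.card ≤ J →
      |(∑ b ∈ Icc 1 X, ∏ m ∈ S.image (mltv q), nuV V ((X : ℝ) ^ κ) (V * b * m + 1)) / X - 1| ≤
        θ := by
    intro S hS
    have h1 := hcor X V W (S.image (mltv q)) hXc hW1 g6 g8 hlog (Finset.card_image_le.trans hS)
      (by
        intro m hm
        rw [Finset.mem_image] at hm
        obtain ⟨x, _, rfl⟩ := hm
        exact hsm x)
    have h2 := hX1 X hXa T M w p0 V q hscl S hS
    refine h1.trans ?_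
    have h3 : (1 + Real.log V) ^ 6 / Real.log X ≤ θ / (4 * C1) := by
      rw [div_le_iff₀ hL0]
      exact g10.trans (mul_le_mul_of_nonneg_right hη2 hL0.le)
    have hWp : (0 : ℝ) < W := by exact_mod_cast hW1
    have h4 : 1 / (W : ℝ) ≤ θ / (4 * C1) := by
      rw [div_le_div_iff₀ hWp (by positivity)]
      rw [div_le_iff₀ hθ] at hW2
      linarith
    calc C1 * ((1 + Real.log V) ^ 6 / Real.log X + 1 / (W : ℝ) +
          (singV C1 V (Del (S.image (mltv q))) - 1))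
        ≤ C1 * (θ / (4 * C1) + θ / (4 * C1) + θ / (4 * C1)) := by
          apply mul_le_mul_of_nonneg_left _ hC1.le
          linarith
      _ = 3 / 4 * θ := by field_simp; ring
      _ ≤ θ := by linarith
  have hpt := fun y => pointwise (V := V) (κ := κ) (q := q) (X := X) (M := M) hκ hθ hX1' hC3 hL1 hL2
    hcor' (fun x => hmom κ X V (mltv q x) hκ hJκ g1 g6 (hsm x).1) m1 I hI (fun i => ψ i y)
  have h1 : eb X (fun b => av (fun y => ∏ i ∈ I, nuv V κ q X b (ψ i y)))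
      = av (fun y => eb X (fun b => ∏ i ∈ I, nuv V κ q X b (ψ i y))) :=
    eb_av X (fun b y => ∏ i ∈ I, nuv V κ q X b (ψ i y))
  rw [h1]
  have h2 : av (fun y => θ + (Real.log X) ^ (C3 + 1)
          * ∑ i ∈ I, ∑ i' ∈ I.erase i, (if ψ i y = ψ i' y then (1 : ℝ) else 0))
      = θ + (Real.log X) ^ (C3 + 1) *
          ∑ i ∈ I, ∑ i' ∈ I.erase i, av (fun y => if ψ i y = ψ i' y then (1 : ℝ) else 0) := by
    rw [av_add, av_const, av_mul, av_sum]
    simp only [av_sum]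
  rw [← h2, abs_le]
  constructor
  · have h3 : av (fun y => -(θ + (Real.log X) ^ (C3 + 1)
          * ∑ i ∈ I, ∑ i' ∈ I.erase i, (if ψ i y = ψ i' y then (1 : ℝ) else 0)) + 1)
        ≤ av (fun y => eb X (fun b => ∏ i ∈ I, nuv V κ q X b (ψ i y))) := by
      refine av_mono fun y => ?_
      have := (abs_le.1 (hpt y)).1
      linarith
    have h4 : ∀ g : Y → ℝ, av (fun y => -(g y) + 1) = -av g + 1 := by
      intro g
      rw [av_add, av_const]
      have : av (fun y => -g y) = -av g := by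
        have := av_mul (-1) g
        simpa using this
      rw [this]
    rw [h4] at h3
    linarith
  · have h3 : av (fun y => eb X (fun b => ∏ i ∈ I, nuv V κ q X b (ψ i y)))
        ≤ av (fun y => (θ + (Real.log X) ^ (C3 + 1)
          * ∑ i ∈ I, ∑ i' ∈ I.erase i, (if ψ i y = ψ i' y then (1 : ℝ) else 0)) + 1) := by
      refine av_mono fun y => ?_
      have := (abs_le.1 (hpt y)).2
      linarith
    rw [av_add _ (fun _ => (1 : ℝ)), av_const] at h3
    linarith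

end Pool.Agent.Lib.MP_9f2731_nt.QL.Aw
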