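import Pool.Agent.Lib.MP_9f2731_nt.QL.Aw.Spec

/-!
MP_9f2731_nt, QL/Aw, module Gro: growth of the scale data.
-/

namespace Pool.Agent.Lib.MP_9f2731_nt.QL.Aw

open Finset
open Pool.Agent.Lib.MP_9f2731_nt.GP
open Pool.Agent.Lib.MP_9f2731_nt.GP.Rel
open Pool.Agent.Lib.MP_9f2731_nt.GP.Asm (eb)
open Pool.Agent.Lib.MP_9f2731_nt.QL

namespace GroAux

/-- all inequalities for large L -/
theorem large (A E K : ℕ) (ε η : ℝ) (hε : 0 < ε) (hη : 0 < η) : ∃ L0 : ℝ, ∀ L : ℝ, L0 ≤ L →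
    2 ≤ L ∧ (K : ℝ) + 1 ≤ L ∧ (1 + 2 * L ^ 5) ^ 6 ≤ η * Real.exp L ∧
    32 * E * (A : ℝ) ^ 3 * L ^ 3 ≤ η * (L ^ 5 / 2) ∧
    2 * L ^ 5 + 160 * E * (A : ℝ) ^ 3 * L ^ 4 ≤ L ^ 6 ∧ L ^ 6 ≤ Real.exp (ε * L) ∧
    20 * E * (A : ℝ) ^ 2 * Real.log L ≤ L ∧ Real.exp (-L) ≤ η := by
  have e1 : ∀ᶠ L : ℝ in Filter.atTop, 2 ≤ L := Filter.eventually_ge_atTop 2
  have e2 : ∀ᶠ L : ℝ in Filter.atTop, (K : ℝ) + 1 ≤ L := Filter.eventually_ge_atTop _
  have e3 : ∀ᶠ L : ℝ in Filter.atTop, 64 * E * (A : ℝ) ^ 3 / η ≤ L :=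
    Filter.eventually_ge_atTop _
  have e4 : ∀ᶠ L : ℝ in Filter.atTop, 2 + 160 * E * (A : ℝ) ^ 3 ≤ L :=
    Filter.eventually_ge_atTop _
  have e5 : ∀ᶠ L : ℝ in Filter.atTop, -Real.log η ≤ L := Filter.eventually_ge_atTop _
  have e6 : ∀ᶠ L : ℝ in Filter.atTop, ‖L ^ 30‖ ≤ η / 729 * ‖Real.exp (1 * L)‖ :=
    (isLittleO_pow_exp_pos_mul_atTop 30 one_pos).bound (by positivity)
  have e7 : ∀ᶠ L : ℝ in Filter.atTop, ‖L ^ 6‖ ≤ 1 * ‖Real.exp (ε * L)‖ :=
    (isLittleO_pow_exp_pos_mul_atTop 6 hε).bound one_pos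
  have e8 : ∀ᶠ L : ℝ in Filter.atTop, ‖Real.log L‖ ≤ 1 / (20 * E * (A : ℝ) ^ 2 + 1) * ‖id L‖ :=
    Real.isLittleO_log_id_atTop.bound (by positivity)
  obtain ⟨L0, h0⟩ := Filter.eventually_atTop.1
    (e1.and (e2.and (e3.and (e4.and (e5.and (e6.and (e7.and e8)))))))
  refine ⟨L0, fun L hL => ?_⟩
  obtain ⟨h1, h2, h3, h4, h5, h6, h7, h8⟩ := h0 L hL
  have hL0 : 0 < L := by linarith
  have hL1 : 1 ≤ L := by linarith
  refine ⟨h1, h2, ?_, ?_, ?_, ?_, ?_, ?_⟩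
  · rw [Real.norm_of_nonneg (by positivity), Real.norm_of_nonneg (Real.exp_pos _).le, one_mul] at h6
    have h9 : (1 : ℝ) ≤ L ^ 5 := one_le_pow₀ hL1
    calc (1 + 2 * L ^ 5) ^ 6 ≤ (3 * L ^ 5) ^ 6 := by
          apply pow_le_pow_left₀ (by positivity)
          linarith
      _ = 729 * L ^ 30 := by ring
      _ ≤ 729 * (η / 729 * Real.exp L) := by linarith
      _ = η * Real.exp L := by ring
  · rw [div_le_iff₀ hη] at h3
    have h9 : 64 * E * (A : ℝ) ^ 3 ≤ L ^ 2 * η := by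
      refine h3.trans (mul_le_mul_of_nonneg_right ?_ hη.le)
      exact le_self_pow₀ hL1 (by norm_num)
    calc 32 * E * (A : ℝ) ^ 3 * L ^ 3 = (64 * E * (A : ℝ) ^ 3) * (L ^ 3 / 2) := by ring
      _ ≤ (L ^ 2 * η) * (L ^ 3 / 2) := by
          apply mul_le_mul_of_nonneg_right h9 (by positivity)
      _ = η * (L ^ 5 / 2) := by ring
  · have h9 : (0 : ℝ) ≤ 160 * E * (A : ℝ) ^ 3 := by positivity
    have h10 : L ^ 4 ≤ L ^ 5 := pow_le_pow_right₀ hL1 (by norm_num)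
    calc 2 * L ^ 5 + 160 * E * (A : ℝ) ^ 3 * L ^ 4
        ≤ 2 * L ^ 5 + 160 * E * (A : ℝ) ^ 3 * L ^ 5 := by nlinarith
      _ = (2 + 160 * E * (A : ℝ) ^ 3) * L ^ 5 := by ring
      _ ≤ L * L ^ 5 := mul_le_mul_of_nonneg_right h4 (by positivity)
      _ = L ^ 6 := by ring
  · rwa [Real.norm_of_nonneg (by positivity), Real.norm_of_nonneg (Real.exp_pos _).le,
      one_mul] at h7
  · have h9 : 0 ≤ Real.log L := Real.log_nonneg hL1
    rw [Real.norm_of_nonneg h9, id, Real.norm_of_nonneg hL0.le] at h8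
    have h10 : (0 : ℝ) < 20 * E * (A : ℝ) ^ 2 + 1 := by positivity
    calc 20 * E * (A : ℝ) ^ 2 * Real.log L ≤ (20 * E * (A : ℝ) ^ 2 + 1) * Real.log L := by
          nlinarith
      _ ≤ (20 * E * (A : ℝ) ^ 2 + 1) * (1 / (20 * E * (A : ℝ) ^ 2 + 1) * L) :=
          mul_le_mul_of_nonneg_left h8 h10.le
      _ = L := by field_simp
  · calc Real.exp (-L) ≤ Real.exp (Real.log η) := Real.exp_le_exp.2 (by linarith)
      _ = η := Real.exp_log hη

theorem logV (w p0 V : ℕ)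
    (hV : V = ∏ p ∈ (range (w + 1)).filter (fun p => p.Prime ∧ p ≠ p0), p) :
    1 ≤ V ∧ Real.log V ≤ 2 * w := by
  have h1 : 1 ≤ V := by
    rw [hV]
    have : 0 < ∏ p ∈ (range (w + 1)).filter (fun p => p.Prime ∧ p ≠ p0), p := by
      apply Finset.prod_pos
      intro p hp
      rw [Finset.mem_filter] at hp
      exact hp.2.1.pos
    exact this
  have h2 : V ≤ 4 ^ w := by
    refine le_trans ?_ (primorial_le_four_pow w)
    rw [hV, primorial]
    refine Finset.prod_le_prod_of_subset_of_one_le' ?_ ?_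
    · intro p hp
      rw [Finset.mem_filter] at hp ⊢
      exact ⟨hp.1, hp.2.1⟩
    · intro p hp _
      exact (Finset.mem_filter.1 hp).2.one_lt.le
  refine ⟨h1, ?_⟩
  have h3 : (V : ℝ) ≤ 4 ^ w := by exact_mod_cast h2
  have h4 : Real.log V ≤ Real.log (4 ^ w) := Real.log_le_log (by exact_mod_cast h1) h3
  rw [Real.log_pow] at h4
  have h5 : Real.log 4 ≤ 2 := by
    have : (4 : ℝ) = 2 ^ 2 := by norm_num
    rw [this, Real.log_pow]
    have := Real.log_two_lt_d9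
    push_cast
    linarith
  have h6 : (0 : ℝ) ≤ w := Nat.cast_nonneg w
  nlinarith

end GroAux

open GroAux in
theorem pGro : GroStmt := by
  intro A E w1 K0 ε η B hA hE hε hη hB
  obtain ⟨L0, hL0⟩ := large A E (K0 + w1) ε η hε hη
  refine ⟨Real.exp (Real.exp L0), ?_⟩
  intro X hX T M w p0 V q h
  have hX0 : (0 : ℝ) < X := lt_of_lt_of_le (Real.exp_pos _) hX
  have hl1 : Real.exp L0 ≤ Real.log X := (Real.le_log_iff_exp_le hX0).2 hX
  have hl0 : 0 < Real.log X := lt_of_lt_of_le (Real.exp_pos _) hl1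
  have hl2 : L0 ≤ Real.log (Real.log X) := (Real.le_log_iff_exp_le hl0).2 hl1
  have hexp : Real.exp (Real.log (Real.log X)) = Real.log X := Real.exp_log hl0
  obtain ⟨L, hL⟩ : ∃ L : ℝ, L = Real.log (Real.log X) := ⟨_, rfl⟩
  obtain ⟨a1, a2, a3, a4, a5, a6, a7, a8⟩ := hL0 _ hl2
  have hTd := h.hT
  have hwd := h.hw
  rw [← hL] at a1 a2 a3 a4 a5 a6 a7 a8 hexp hTd hwd ⊢
  have hLp : 0 < L := by linarith
  have hLone : 1 ≤ L := by linarith
  have hA' : (1 : ℝ) ≤ A := by exact_mod_cast hA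
  have hE' : (1 : ℝ) ≤ E := by exact_mod_cast hE
  have hAL : 0 ≤ (A : ℝ) * L := by positivity
  have hT1 : (A : ℝ) * L ≤ T := by rw [hTd]; exact Nat.le_ceil _
  have hT2 : (T : ℝ) ≤ 2 * A * L := by
    have h1 : (T : ℝ) < A * L + 1 := by rw [hTd]; exact Nat.ceil_lt_add_one hAL
    nlinarith
  have hT0 : (0 : ℝ) ≤ T := Nat.cast_nonneg T
  have hM2 : (M : ℝ) ≤ 4 * E * T ^ 2 := by exact_mod_cast h.hM2
  have hT3 : (T : ℝ) ^ 2 ≤ (2 * A * L) ^ 2 := pow_le_pow_left₀ hT0 hT2 2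
  have hM3 : (M : ℝ) ≤ 16 * E * A ^ 2 * L ^ 2 := by
    calc (M : ℝ) ≤ 4 * E * T ^ 2 := hM2
      _ ≤ 4 * E * (2 * A * L) ^ 2 := mul_le_mul_of_nonneg_left hT3 (by positivity)
      _ = _ := by ring
  have hM0 : (0 : ℝ) ≤ M := Nat.cast_nonneg M
  have hTM : (T : ℝ) * M ≤ 32 * E * A ^ 3 * L ^ 3 := by
    calc (T : ℝ) * M ≤ (2 * A * L) * (16 * E * A ^ 2 * L ^ 2) :=
          mul_le_mul hT2 hM3 hM0 (by positivity)
      _ = _ := by ring
  have hTM0 : (0 : ℝ) ≤ T * M := mul_nonneg hT0 hM0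
  have hL5 : L ≤ L ^ 5 := le_self_pow₀ hLone (by norm_num)
  have hw1 : (w : ℝ) ≤ L ^ 5 := by rw [hwd]; exact Nat.floor_le (by positivity)
  have hw2 : L ^ 5 - 1 < w := by rw [hwd]; exact Nat.sub_one_lt_floor _
  have hw3 : L ^ 5 / 2 ≤ w := by linarith
  have hKw : (K0 : ℝ) + w1 ≤ w := by
    push_cast at a2
    linarith
  have hKw' : K0 + w1 ≤ w := by exact_mod_cast hKw
  have hwp : (0 : ℝ) < w := by linarith
  have hlw : Real.log w ≤ 5 * Real.log L := by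
    have h1 := Real.log_le_log hwp hw1
    rw [Real.log_pow] at h1
    exact_mod_cast h1
  have hlL0 : 0 ≤ Real.log L := Real.log_nonneg hLone
  have hlL : Real.log L ≤ L := (Real.log_le_sub_one_of_pos hLp).trans (by linarith)
  obtain ⟨v1, v2⟩ := logV w p0 V h.hV
  have hV2 : Real.log V ≤ 2 * L ^ 5 := by linarith
  have hV0 : 0 ≤ Real.log V := Real.log_nonneg (by exact_mod_cast v1)
  have hmem : ∀ p : ℕ, p.Prime → p ≤ w → p ≠ p0 → p ∣ V := by
    intro p hp hpw hp0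
    rw [h.hV]
    exact Finset.dvd_prod_of_mem (fun p => p)
      (Finset.mem_filter.2 ⟨Finset.mem_range.2 (by omega), hp, hp0⟩)
  have hsum : Real.log V + T * M * Real.log w ≤ L ^ 6 := by
    have h1 : (T : ℝ) * M * Real.log w ≤ 160 * E * (A : ℝ) ^ 3 * L ^ 4 := by
      calc (T : ℝ) * M * Real.log w ≤ T * M * (5 * Real.log L) :=
            mul_le_mul_of_nonneg_left hlw hTM0
        _ ≤ T * M * (5 * L) := mul_le_mul_of_nonneg_left (by linarith) hTM0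
        _ ≤ (32 * E * A ^ 3 * L ^ 3) * (5 * L) := mul_le_mul_of_nonneg_right hTM (by positivity)
        _ = _ := by ring
    linarith
  have hlogX : Real.log X ≤ X := (Real.log_le_sub_one_of_pos hX0).trans (by linarith)
  have hLX : L ≤ Real.log X := by
    rw [← hexp]
    linarith [Real.add_one_le_exp L]
  have hKL : (K0 : ℝ) ≤ L := by
    push_cast at a2
    have : (0 : ℝ) ≤ w1 := Nat.cast_nonneg w1
    linarith
  refine ⟨?_, hKL, ?_, by omega, by omega, v1, fun j => ?_, ?_, hmem, ?_, ?_, ?_, hsum, ?_, ?_⟩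
  · have : (K0 : ℝ) ≤ X := by linarith
    exact_mod_cast this
  · have : (K0 : ℝ) ≤ T := by nlinarith
    exact_mod_cast this
  · exact hmem _ (h.hq j).1 (h.hq j).2.1 (h.hq j).2.2
  · intro p hp hpw
    exact hmem p hp (by omega) (by have := h.hp1; omega)
  · calc (1 + Real.log V) ^ 6 ≤ (1 + 2 * L ^ 5) ^ 6 :=
          pow_le_pow_left₀ (by linarith) (by linarith) 6
      _ ≤ η * Real.exp L := a3
      _ = η * Real.log X := by rw [hexp]
  · calc (T : ℝ) * M ≤ 32 * E * A ^ 3 * L ^ 3 := hTM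
      _ ≤ η * (L ^ 5 / 2) := a4
      _ ≤ η * w := mul_le_mul_of_nonneg_left hw3 hη.le
  · refine hsum.trans (a6.trans ?_)
    rw [← hexp, ← Real.exp_mul, mul_comm]
  · calc (E : ℝ) * T ^ 2 * Real.log w ≤ E * T ^ 2 * (5 * Real.log L) :=
          mul_le_mul_of_nonneg_left hlw (by positivity)
      _ ≤ E * (2 * A * L) ^ 2 * (5 * Real.log L) := by
          apply mul_le_mul_of_nonneg_right _ (by positivity)
          exact mul_le_mul_of_nonneg_left hT3 (by positivity)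
      _ = (20 * E * (A : ℝ) ^ 2 * Real.log L) * L ^ 2 := by ring
      _ ≤ L * L ^ 2 := mul_le_mul_of_nonneg_right a7 (by positivity)
      _ = L ^ 3 := by ring
  · have h1 : (1 / 2 : ℝ) ^ T ≤ Real.exp (-((B + 1) * L)) := by
      have h2 : (1 / 2 : ℝ) ^ T = Real.exp (-(T * Real.log 2)) := by
        rw [← Real.rpow_natCast, Real.rpow_def_of_pos (by norm_num), one_div, Real.log_inv]
        congr 1
        ring
      rw [h2]
      apply Real.exp_le_exp.2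
      have h3 := Real.log_two_gt_d9
      have h4 : (B + 1) * L ≤ A / 2 * L := mul_le_mul_of_nonneg_right (by linarith) hLp.le
      have h5 : (A : ℝ) * L * Real.log 2 ≤ T * Real.log 2 :=
        mul_le_mul_of_nonneg_right hT1 (by linarith)
      have h6 : (A : ℝ) / 2 * L ≤ A * L * Real.log 2 := by nlinarith
      linarith
    have h7 : (Real.log X) ^ B = Real.exp (B * L) := by
      rw [← hexp, ← Real.exp_mul, mul_comm]
    rw [h7]
    calc Real.exp (B * L) * (1 / 2 : ℝ) ^ T ≤ Real.exp (B * L) * Real.exp (-((B + 1) * L)) :=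
          mul_le_mul_of_nonneg_left h1 (Real.exp_pos _).le
      _ = Real.exp (-L) := by
          rw [← Real.exp_add]
          congr 1
          ring
      _ ≤ η := a8

end Pool.Agent.Lib.MP_9f2731_nt.QL.Aw
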