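import Pool.Agent.Lib.MP_9f2731_nt.QL.Aw.NwC

/-!
MP_9f2731_nt, QL/Aw, module NwA (helper78): the narrow condition in mean square.
-/

namespace Pool.Agent.Lib.MP_9f2731_nt.QL.Aw

open Finset
open Pool.Agent.Lib.MP_9f2731_nt.GP
open Pool.Agent.Lib.MP_9f2731_nt.GP.Rel
open Pool.Agent.Lib.MP_9f2731_nt.GP.Asm (eb)
open Pool.Agent.Lib.MP_9f2731_nt.QL

/-- the proportion of a point of a box -/
theorem nwa_box {T M h : ℕ} [NeZero M] (hB : BoxStmt) (h2 : 2 ≤ h) (hM : h ≤ M) :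
    1 / ((Xb T M h).card : ℝ) ≤ (1 / 2 : ℝ) ^ T := by
  rw [(hB T M h hM).1, one_div, one_div, inv_pow]
  push_cast
  refine inv_anti₀ (by positivity) (pow_le_pow_left₀ (by norm_num) ?_ T)
  exact_mod_cast h2

theorem pNwA (h1 : CngStmt) (h2 : BoxStmt) : NwAStmt := by
  intro k J κ θ X T M V _ q hJ hMp hkM hMean A
  have hfac : 1 ≤ k.factorial := Nat.succ_le_of_lt (Nat.factorial_pos k)
  have hM2 : 2 ≤ M := hMp.two_le
  have hbox := h2 T M 2 hM2
  have hinj := hbox.2 hMp k.factorial hfac hkM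
  have hne : (Xb T M 2).Nonempty := by
    rw [← card_pos, hbox.1]
    positivity
  have hC := h1 k k.factorial (Fin T → ZMod M) (Xb T M 2) hne hinj
  have : Nonempty (Xb T M 2) := hne.to_subtype
  have hcard : A.card ≤ 2 ^ k := by
    refine (Finset.card_le_univ A).trans (le_of_eq ?_)
    rw [Fintype.card_fun, Fintype.card_bool, Fintype.card_fin]
  have h := hMean Unit ((Fin T → ZMod M) × (Fin k × Bool → Xb T M 2)) (Fin k → Bool) A
    (fun ω _ z => z.1 + k.factorial • ∑ a, ((z.2 (a, ω a) : Xb T M 2) : Fin T → ZMod M)) (by omega)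
    (fun ω _ ω' _ hne' => by
      rw [GP.Asm.lf2_av_prod (fun (_ : Unit) (z : (Fin T → ZMod M) × (Fin k × Bool → Xb T M 2)) =>
        if z.1 + k.factorial • ∑ a, ((z.2 (a, ω a) : Xb T M 2) : Fin T → ZMod M) =
          z.1 + k.factorial • ∑ a, ((z.2 (a, ω' a) : Xb T M 2) : Fin T → ZMod M) then (1 : ℝ) else 0),
        nwc_unit]
      exact ((hC ω ω').1 hne').trans (nwa_box h2 le_rfl hM2))
    (fun ω _ ω' _ => by
      rw [GP.Asm.lf2_av_prod (fun (_ : Unit) (z : ((Fin T → ZMod M) × (Fin k × Bool → Xb T M 2)) ×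
          ((Fin T → ZMod M) × (Fin k × Bool → Xb T M 2))) =>
        if z.1.1 + k.factorial • ∑ a, ((z.1.2 (a, ω a) : Xb T M 2) : Fin T → ZMod M) =
          z.2.1 + k.factorial • ∑ a, ((z.2.2 (a, ω' a) : Xb T M 2) : Fin T → ZMod M)
          then (1 : ℝ) else 0), nwc_unit]
      exact ((hC ω ω').2).trans (nwc_card hM2))
  simp only [nwc_unit] at h
  exact h

end Pool.Agent.Lib.MP_9f2731_nt.QL.Aw
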