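import Pool.Agent.Lib.MP_9f2731_nt.QL.Aw.Spec

/-!
MP_9f2731_nt, QL/Aw, module Bsv (helper78): the main step.
-/

namespace Pool.Agent.Lib.MP_9f2731_nt.QL.Aw

open Finset
open Pool.Agent.Lib.MP_9f2731_nt.GP
open Pool.Agent.Lib.MP_9f2731_nt.GP.Rel
open Pool.Agent.Lib.MP_9f2731_nt.GP.Asm (eb)
open Pool.Agent.Lib.MP_9f2731_nt.QL

private theorem bsv_mono {α : Type} [Fintype α] (f g : α → ℝ) (h : ∀ x, f x ≤ g x) :
    av f ≤ av g := by
  unfold av
  exact div_le_div_of_nonneg_right (sum_le_sum fun x _ => h x) (Nat.cast_nonneg _)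

private theorem bsv_nonneg {α : Type} [Fintype α] (f : α → ℝ) (h : ∀ x, 0 ≤ f x) : 0 ≤ av f := by
  unfold av
  exact div_nonneg (sum_nonneg fun x _ => h x) (Nat.cast_nonneg _)

open Classical in
private theorem bsv_fb {P : ℕ → Prop} {V : ℕ} {κ : ℝ} {T M : ℕ} {q : Fin T → ℕ} {K X b : ℕ}
    {x : Fin T → ZMod M} (h : fbv P V κ q K X b x ≠ 0) :
    (∀ j, (x j).val + K < M) ∧ (V * b * mltv q x + 1).Prime ∧ P (V * b * mltv q x) := by
  by_contra hcon
  apply h
  unfold fbv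
  rw [if_neg]
  exact fun h' => hcon ⟨h'.1, h'.2.2.1, h'.2.2.2⟩

private theorem bsv_exp {n : ℕ} {t : ℝ} (hn : 1 ≤ n) (h : Real.log n ≤ t) : (n : ℝ) ≤ Real.exp t := by
  have hn0 : (0 : ℝ) < n := Nat.cast_pos.2 (by omega)
  rwa [← Real.log_le_iff_le_exp hn0]

open Classical in
theorem pBsv (h1 : RelWStmt) (h2 : MsVStmt) (h3 : GroStmt) (h4 : MlVStmt) (h5 : BoxStmt)
    (h6 : ShVStmt) (h7 : NwCStmt) (h8 : GdbStmt) (h9 : GP.Asm.SelStmt) (h10 : SceStmt)
    (h11 : DnVStmt) (h12 : MjVStmt) (h13 : DgvStmt) (h14 : PtVStmt) : BsvStmt := by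
  intro k δ hk hδ
  have h2k : 1 ≤ 2 ^ k := Nat.one_le_two_pow
  have hkk : 1 ≤ k * 2 ^ k := Nat.one_le_iff_ne_zero.2 (Nat.mul_ne_zero (by omega) (by omega))
  obtain ⟨κ, A0, hκ0, hκ1, hMs⟩ := h2 (2 * (k * 2 ^ k)) (by omega)
  obtain ⟨δ', hδ', hDn⟩ := h11 κ δ hκ0 hκ1 hδ
  obtain ⟨c, η, θr, n0, hc, hη, hθr, hRel⟩ := h1 k δ' (by omega) hδ'
  obtain ⟨B, hB2, hB⟩ : ∃ B : ℕ, 2 ≤ B ∧ (k.factorial : ℝ) ≤ θr * B := by
    refine ⟨⌈(k.factorial : ℝ) / θr⌉₊ + 2, by omega, ?_⟩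
    have h := Nat.le_ceil ((k.factorial : ℝ) / θr)
    rw [div_le_iff₀ hθr] at h
    push_cast
    nlinarith
  obtain ⟨E, hE⟩ : ∃ E : ℕ, E = k * (n0 + 1) * B := ⟨_, rfl⟩
  have hE1 : 1 ≤ E := by
    rw [hE]
    exact Nat.one_le_iff_ne_zero.2 (Nat.mul_ne_zero (Nat.mul_ne_zero (by omega) (by omega)) (by omega))
  obtain ⟨A, hA0, hA1, hA2⟩ : ∃ A : ℕ, A0 ≤ A ∧ 1 ≤ A ∧ 2 * ((k : ℝ) + 1) ≤ A :=
    ⟨A0 + 2 * (k + 1), by omega, by omega, by push_cast; linarith [Nat.cast_nonneg (α := ℝ) A0]⟩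
  obtain ⟨nS, hnS⟩ : ∃ nS : ℝ, nS = 2 ^ (2 ^ k) + n0 * 2 ^ (k * 2 ^ k) := ⟨_, rfl⟩
  have hnS0 : 0 < nS := by
    rw [hnS]
    positivity
  obtain ⟨θ, hθ, hθ1, hθ2⟩ : ∃ θ : ℝ, 0 < θ ∧ θ ≤ 1 / 6 ∧ nS * (θ / η ^ 2) ≤ δ' ^ 2 / 4 := by
    refine ⟨min (1 / 6) (η ^ 2 * δ' ^ 2 / (4 * nS)), by positivity, min_le_left _ _, ?_⟩
    have hm := min_le_right (1 / 6 : ℝ) (η ^ 2 * δ' ^ 2 / (4 * nS))
    rw [← mul_div_assoc, div_le_iff₀ (by positivity)]
    refine (mul_le_mul_of_nonneg_left hm hnS0.le).trans (le_of_eq ?_)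
    field_simp
  obtain ⟨w1, hw1⟩ := hMs θ hθ
  obtain ⟨X1, hX1⟩ := hw1 A E hA1 hA0 hE1
  obtain ⟨X2, hX2⟩ := h3 A E w1 (k.factorial + 2) 1 (c / 2) k hA1 hE1 one_pos (by positivity) hA2
  obtain ⟨X3, hX3⟩ := h10 A E w1 hA1 hE1
  obtain ⟨X4, hX4⟩ := hDn A E w1 hA1 hE1
  refine ⟨δ' ^ 2 / 4, max X1 (max X2 (max X3 (max X4 3))), by positivity, fun X hX => ?_⟩
  rw [max_le_iff, max_le_iff, max_le_iff, max_le_iff] at hX
  obtain ⟨a1, a2, a3, a4, a5⟩ := hX
  have hX3' : 3 ≤ X := by exact_mod_cast a5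
  obtain ⟨T, M, w, p0, V, q, hS, hcnt⟩ := hX3 X a3
  have : NeZero M := ⟨hS.hM.ne_zero⟩
  obtain ⟨-, -, g3, -, g5, g6, g7, -, -, -, -, -, g13, g14, g15⟩ := hX2 X a2 T M w p0 V q hS
  have hMean := hX1 X a1 T M w p0 V q hS
  have hfac : 1 ≤ k.factorial := Nat.succ_le_of_lt (Nat.factorial_pos k)
  have hT1 : 1 ≤ T := by omega
  obtain ⟨h, hh⟩ : ∃ h : ℕ, h = B * T := ⟨_, rfl⟩
  obtain ⟨K', hK'⟩ : ∃ K' : ℕ, K' = E * T := ⟨_, rfl⟩
  have hKh : K' = k * (n0 + 1) * h := by rw [hK', hE, hh]; ring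
  have hh2 : 2 ≤ h := by
    rw [hh]
    nlinarith
  have hhK : h ≤ K' := by
    rw [hKh]
    have : 1 ≤ k * (n0 + 1) := Nat.one_le_iff_ne_zero.2 (Nat.mul_ne_zero (by omega) (by omega))
    nlinarith
  have hTM : E * T * T < M := by
    have h20 := hS.hM1
    have h21 : 2 * E * T ^ 2 = 2 * (E * T * T) := by ring
    omega
  have hKM : K' < M := by
    rw [hK']
    refine lt_of_le_of_lt ?_ hTM
    nlinarith [Nat.zero_le (E * T)]
  have hhM : h ≤ M := by omega
  have hTM' : T < M := by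
    refine lt_of_le_of_lt ?_ hTM
    have h22 : 1 ≤ E * T := Nat.one_le_iff_ne_zero.2 (Nat.mul_ne_zero (by omega) (by omega))
    nlinarith
  have hfM : k.factorial < M := by omega
  have hX0 : (0 : ℝ) < X := Nat.cast_pos.2 (by omega)
  have hq : ∀ j, (q j).Prime := fun j => (hS.hq j).1
  have hqw : ∀ j, q j ≤ w := fun j => (hS.hq j).2.1
  obtain ⟨m1, m2, m3⟩ := h4 T q hq hS.hqi M
  have hw0 : 0 ≤ Real.log (w : ℝ) := Real.log_natCast_nonneg w
  have hVpos : (0 : ℝ) < V := Nat.cast_pos.2 (by omega)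
  have hlogV : 0 ≤ Real.log (V : ℝ) := Real.log_natCast_nonneg V
  have hlogX : 0 < Real.log X := Real.log_pos (by exact_mod_cast (by omega : 1 < X))
  -- the multipliers
  refine ⟨V, univ.image (fun x : Fin T → ZMod M => mltv q x), g6, univ_nonempty.image _, ?_, ?_⟩
  · intro m hm
    obtain ⟨x, -, rfl⟩ := mem_image.1 hm
    have hm1 : 1 ≤ mltv q x := (m2 V g7 x).1
    refine ⟨hm1, ?_, ?_⟩
    · refine bsv_exp (Nat.one_le_iff_ne_zero.2 (Nat.mul_ne_zero (by omega) (by omega))) ?_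
      have hmpos : (0 : ℝ) < (mltv q x : ℕ) := Nat.cast_pos.2 (by omega)
      rw [Nat.cast_mul, Real.log_mul hVpos.ne' hmpos.ne']
      have := m3 w hqw x
      linarith
    · refine le_trans ?_ (hcnt x)
      refine mul_le_mul_of_nonneg_left (div_le_div_of_nonneg_right ?_ hlogX.le) (by norm_num)
      have htot : (0 : ℝ) < V.totient := Nat.cast_pos.2 (Nat.totient_pos.2 (by omega))
      have : (1 : ℝ) ≤ (V : ℝ) / V.totient := by
        rw [le_div_iff₀ htot, one_mul]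
        exact_mod_cast Nat.totient_le V
      nlinarith
  · intro P hP
    have hP' : ∀ x : Fin T → ZMod M,
        δ * (((Icc 1 X).filter (fun b => (V * b * mltv q x + 1).Prime)).card : ℝ) ≤
          (((Icc 1 X).filter (fun b => (V * b * mltv q x + 1).Prime ∧
            P (V * b * mltv q x))).card : ℝ) := fun x => hP _ (mem_image_of_mem _ (mem_univ x))
    have hden := hX4 X a4 T M w p0 V q hS hcnt P hP'
    have hmaj := fun (b : ℕ) (x : Fin T → ZMod M) => h12 P V κ T M q K' X b x g6 hκ0 hκ1 (by omega) hq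
    rw [← hK'] at hden
    have hsel := h9.1 X (fun b => av (fun x : Fin T → ZMod M => fbv P V κ q K' X b x))
      (fun b => av (fun x : Fin T → ZMod M => nuv V κ q X b x)) δ' (by omega) hδ'
      (fun b => ⟨bsv_nonneg _ fun x => (hmaj b x).1, bsv_mono _ _ fun x => (hmaj b x).2.1⟩) hden
      (h7 _ κ θ X T M V q (by omega) (by omega) (by omega) hθ1 hMean)
    have hgd := h8 k n0 _ κ θ η X T M V h q (by omega) le_rfl hS.hM hfM hh2 hhM (by omega) hη hθ.le
      hMean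
    rw [← hnS] at hgd
    have hgd' : (((Icc 1 X).filter (fun b => ¬ (NLF k k.factorial η (Xb T M 2)
        (fun x => nuv V κ q X b x) ∧ WLF k n0 η (Xb T M h) (fun x => nuv V κ q X b x)))).card : ℝ) ≤
        δ' ^ 2 / 4 * X := hgd.trans (mul_le_mul_of_nonneg_right hθ2 hX0.le)
    -- the good b
    have hsub : (Icc 1 X).filter (fun b => δ' ≤ av (fun x : Fin T → ZMod M =>
        fbv P V κ q K' X b x)) ⊆
        ((Icc 1 X).filter (fun b => ∃ m ∈ univ.image (fun x : Fin T → ZMod M => mltv q x),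
          ∃ r : ℕ, 2 ≤ r ∧ (r : ℝ) ≤ Real.exp ((Real.log (Real.log X)) ^ 3) ∧
          ∀ i : ℕ, i < k → (V * b * m * r ^ i + 1).Prime ∧ P (V * b * m * r ^ i))) ∪
        (Icc 1 X).filter (fun b => ¬ (NLF k k.factorial η (Xb T M 2)
          (fun x => nuv V κ q X b x) ∧ WLF k n0 η (Xb T M h) (fun x => nuv V κ q X b x))) := by
      intro b hb
      rw [mem_filter] at hb
      obtain ⟨hbX, hav⟩ := hb
      by_cases hgood : NLF k k.factorial η (Xb T M 2) (fun x => nuv V κ q X b x) ∧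
          WLF k n0 η (Xb T M h) (fun x => nuv V κ q X b x)
      swap
      · exact mem_union_right _ (mem_filter.2 ⟨hbX, hgood⟩)
      refine mem_union_left _ (mem_filter.2 ⟨hbX, ?_⟩)
      have hXcard : (Xb T M h).card = h ^ T := (h5 T M h hhM).1
      have hYcard : (Xb T M 2).card = 2 ^ T := (h5 T M 2 (by omega)).1
      have hXne : (Xb T M h).Nonempty := by
        rw [← card_pos, hXcard]
        positivity
      have hYne : (Xb T M 2).Nonempty := by
        rw [← card_pos, hYcard]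
        positivity
      have hShf : Shf k.factorial θr (Xb T M h) (Xb T M 2) := by
        refine h6 T M h k.factorial θr (by omega) hhM ?_
        rw [hh]
        push_cast
        have : (0 : ℝ) ≤ T := Nat.cast_nonneg T
        nlinarith
      have hsum : δ' * (Fintype.card (Fin T → ZMod M) : ℝ) ≤
          ∑ x : Fin T → ZMod M, fbv P V κ q K' X b x := by
        have h10 : δ' ≤ (∑ x : Fin T → ZMod M, fbv P V κ q K' X b x) /
          (Fintype.card (Fin T → ZMod M) : ℝ) := hav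
        rwa [le_div_iff₀ (Nat.cast_pos.2 Fintype.card_pos)] at h10
      obtain ⟨m, hm, hav2⟩ := hRel (Fin T → ZMod M) (Xb T M h) (Xb T M 2) hXne hYne hShf
        (fun x => nuv V κ q X b x) (fun x => fbv P V κ q K' X b x)
        (fun x => ⟨(hmaj b x).1, (hmaj b x).2.1⟩) hgood.1 hgood.2 hsum
      have hF : (Real.log X) ^ k / ((Xb T M h).card : ℝ) < c := by
        rw [hXcard]
        have h30 : (2 : ℝ) ^ T ≤ ((h ^ T : ℕ) : ℝ) := by
          push_cast
          exact pow_le_pow_left₀ (by norm_num) (by exact_mod_cast hh2) T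
        have h31 : (Real.log X) ^ k / ((h ^ T : ℕ) : ℝ) ≤ (Real.log X) ^ k / 2 ^ T :=
          div_le_div_of_nonneg_left (by positivity) (by positivity) h30
        have h32 : (Real.log X) ^ k / 2 ^ T = (Real.log X) ^ (k : ℝ) * (1 / 2 : ℝ) ^ T := by
          rw [Real.rpow_natCast, one_div, inv_pow, div_eq_mul_inv]
        rw [h32] at h31
        linarith
      obtain ⟨e, x, hd, hne⟩ := h13 k m (k * n0 + 1) (Fin T → ZMod M) (Xb T M h)
        (fun x => fbv P V κ q K' X b x) (Real.log X) c (by omega) (by omega) hXne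
        (fun x => ⟨(hmaj b x).1, (hmaj b x).2.2⟩) hF hav2
      have hkm : k * m + 1 ≤ k * n0 + 1 := by nlinarith
      have hkm' : k * (m + 1) * h ≤ K' := by
        rw [hKh]
        exact Nat.mul_le_mul_right h (Nat.mul_le_mul_left k (by omega))
      obtain ⟨j0, r, hr2, hrl, hpt⟩ := h14 T M h k m (k * n0 + 1) K' q hq (by omega) hkm (by omega)
        hkm' hKM e x hd fun j t => (bsv_fb (hne j)).1 t
      refine ⟨mltv q (e + frw m j0 x), mem_image_of_mem _ (mem_univ _), r, hr2, ?_, ?_⟩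
      · refine bsv_exp (by omega) ((hrl w hqw).trans ?_)
        refine le_trans (le_of_eq ?_) g14
        rw [hK']
        push_cast
        ring
      · intro i hi
        obtain ⟨j, hj⟩ := hpt i hi
        have h40 := (bsv_fb (hne j)).2
        rw [hj] at h40
        rw [mul_assoc (V * b)]
        exact h40
    have hcard := (card_le_card hsub).trans (card_union_le _ _)
    have hcard' : (((Icc 1 X).filter (fun b => δ' ≤ av (fun x : Fin T → ZMod M =>
        fbv P V κ q K' X b x))).card : ℝ) ≤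
        (((Icc 1 X).filter (fun b => ∃ m ∈ univ.image (fun x : Fin T → ZMod M => mltv q x),
          ∃ r : ℕ, 2 ≤ r ∧ (r : ℝ) ≤ Real.exp ((Real.log (Real.log X)) ^ 3) ∧
          ∀ i : ℕ, i < k → (V * b * m * r ^ i + 1).Prime ∧ P (V * b * m * r ^ i))).card : ℝ) +
        (((Icc 1 X).filter (fun b => ¬ (NLF k k.factorial η (Xb T M 2)
          (fun x => nuv V κ q X b x) ∧ WLF k n0 η (Xb T M h)
            (fun x => nuv V κ q X b x)))).card : ℝ) := by
      exact_mod_cast hcard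
    have hsel' : δ' ^ 2 / 2 * X ≤ (((Icc 1 X).filter (fun b => δ' ≤ av (fun x : Fin T → ZMod M =>
        fbv P V κ q K' X b x))).card : ℝ) := by
      refine hsel.trans (le_of_eq ?_)
      congr 2
    linarith

end Pool.Agent.Lib.MP_9f2731_nt.QL.Aw
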