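import Pool.Agent.Lib.MP_9f2731_nt.QL.Aw.Cwg

/-!
MP_9f2731_nt, QL/Aw, module Cng (helper78): coincidences of the narrow forms.
-/

namespace Pool.Agent.Lib.MP_9f2731_nt.QL.Aw

open Finset
open Pool.Agent.Lib.MP_9f2731_nt.GP
open Pool.Agent.Lib.MP_9f2731_nt.GP.Rel
open Pool.Agent.Lib.MP_9f2731_nt.QL

/-- mean over one variable -/
private theorem cng_core {G Y : Type} [DecidableEq G] {ι : Type} [Fintype ι] [DecidableEq ι]
    [Fintype Y] [Nonempty Y] (L R : (ι → Y) → G) (a : ι)
    (hR : ∀ x v, R (Function.update x a v) = R x)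
    (hL : ∀ (x : ι → Y) (u u' : Y),
      L (Function.update x a u) = L (Function.update x a u') → u = u') :
    av (fun x => if L x = R x then (1 : ℝ) else 0) ≤ 1 / Fintype.card Y := by
  rw [← pUpd ι Y a]
  refine cwg_le _ _ fun x => cwg_one _ fun u u' hu hu' => ?_
  refine hL x u u' ?_
  rw [hu, hu', hR, hR]

theorem pCng : CngStmt := by
  intro k D G _ _ _ Y hY hD ω ω'
  have : Nonempty Y := hY.to_subtype
  constructor
  · intro hne
    obtain ⟨a, ha⟩ : ∃ a, ω a ≠ ω' a := by
      by_contra hcon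
      push Not at hcon
      exact hne (funext hcon)
    rw [GP.Asm.lf2_av_prod (fun (e : G) (y : Fin k × Bool → Y) =>
      if e + D • ∑ a, ((y (a, ω a) : Y) : G) = e + D • ∑ a, ((y (a, ω' a) : Y) : G)
        then (1 : ℝ) else 0)]
    refine cwg_le _ _ fun e => ?_
    refine (cng_core (fun y : Fin k × Bool → Y => e + D • ∑ a, ((y (a, ω a) : Y) : G))
      (fun y => e + D • ∑ a, ((y (a, ω' a) : Y) : G)) (a, ω a) (fun x v => ?_)
      (fun x u u' h => ?_)).trans (le_of_eq (by rw [Fintype.card_coe]))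
    · congr 2
      refine Finset.sum_congr rfl fun l _ => ?_
      have hne' : (l, ω' l) ≠ (a, ω a) := by
        intro e'
        have h1 : l = a := congrArg Prod.fst e'
        subst h1
        exact ha (congrArg Prod.snd e').symm
      rw [Function.update_of_ne hne']
    · have h1 := hD (add_left_cancel h)
      rw [← sub_eq_zero, ← Finset.sum_sub_distrib, Finset.sum_eq_single a] at h1
      · rw [Function.update_self, Function.update_self] at h1
        exact Subtype.ext (sub_eq_zero.1 h1)
      · intro l _ hl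
        have hne' : (l, ω l) ≠ (a, ω a) := fun e' => hl (congrArg Prod.fst e')
        rw [Function.update_of_ne hne', Function.update_of_ne hne', sub_self]
      · intro h
        exact absurd (mem_univ _) h
  · rw [GP.Asm.lf2_av_prod (fun (z z' : G × (Fin k × Bool → Y)) =>
      if z.1 + D • ∑ a, ((z.2 (a, ω a) : Y) : G) = z'.1 + D • ∑ a, ((z'.2 (a, ω' a) : Y) : G)
        then (1 : ℝ) else 0)]
    refine cwg_le _ _ fun z => ?_
    have h2 : av (fun z' : G × (Fin k × Bool → Y) =>
        if z.1 + D • ∑ a, ((z.2 (a, ω a) : Y) : G) = z'.1 + D • ∑ a, ((z'.2 (a, ω' a) : Y) : G)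
          then (1 : ℝ) else 0) =
        av (fun y : (Fin k × Bool → Y) × G =>
        if z.1 + D • ∑ a, ((z.2 (a, ω a) : Y) : G) = y.2 + D • ∑ a, ((y.1 (a, ω' a) : Y) : G)
          then (1 : ℝ) else 0) := by
      unfold av
      congr 1
      · exact Fintype.sum_equiv (Equiv.prodComm _ _) _ _ fun y => rfl
      · rw [Fintype.card_prod, Fintype.card_prod, mul_comm]
    rw [h2, GP.Asm.lf2_av_prod (fun (y : Fin k × Bool → Y) (e : G) =>
        if z.1 + D • ∑ a, ((z.2 (a, ω a) : Y) : G) = e + D • ∑ a, ((y (a, ω' a) : Y) : G)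
          then (1 : ℝ) else 0)]
    refine cwg_le _ _ fun y => cwg_one _ fun u u' hu hu' => ?_
    exact add_right_cancel (hu.symm.trans hu')

end Pool.Agent.Lib.MP_9f2731_nt.QL.Aw
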