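import Pool.Agent.Lib.MP_9f2731_nt.QL.Aw.Spec
import Pool.Agent.Lib.MP_9f2731_nt.GP.Rel.Upd
import Pool.Agent.Lib.MP_9f2731_nt.GP.Asm.Lf2

/-!
MP_9f2731_nt, QL/Aw, module Cwg (helper78): coincidences of the wide forms.
-/

namespace Pool.Agent.Lib.MP_9f2731_nt.QL.Aw

open Finset
open Pool.Agent.Lib.MP_9f2731_nt.GP
open Pool.Agent.Lib.MP_9f2731_nt.GP.Rel
open Pool.Agent.Lib.MP_9f2731_nt.QL

theorem cwg_mono {α : Type} [Fintype α] (f g : α → ℝ) (h : ∀ x, f x ≤ g x) : av f ≤ av g := by
  unfold av
  exact div_le_div_of_nonneg_right (sum_le_sum fun x _ => h x) (Nat.cast_nonneg _)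

theorem cwg_le {α : Type} [Fintype α] [Nonempty α] (f : α → ℝ) (ρ : ℝ) (h : ∀ x, f x ≤ ρ) :
    av f ≤ ρ :=
  (cwg_mono f (fun _ => ρ) h).trans (le_of_eq (GP.Asm.lf2_av_const ρ))

/-- an equation with at most one solution -/
theorem cwg_one {α : Type} [Fintype α] (P : α → Prop) [DecidablePred P]
    (h : ∀ u u', P u → P u' → u = u') :
    av (fun u => if P u then (1 : ℝ) else 0) ≤ 1 / Fintype.card α := by
  unfold av
  refine div_le_div_of_nonneg_right ?_ (Nat.cast_nonneg _)
  rw [Finset.sum_boole]
  have : (univ.filter P).card ≤ 1 := Finset.card_le_one.2 fun u hu u' hu' =>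
    h u u' (mem_filter.1 hu).2 (mem_filter.1 hu').2
  exact_mod_cast this

/-- mean over one entry -/
theorem cwg_core {G : Type} [DecidableEq G] {X : Finset G} {ι : Type} [Fintype ι] [DecidableEq ι]
    {K : ℕ} (hX : X.Nonempty) (L : (ι → Fin K → X) → G) (R : (ι → Fin K → X) → G) (a : ι)
    (t0 : Fin K) (hR : ∀ x v, R (Function.update x a v) = R x)
    (hL : ∀ (x : ι → Fin K → X) (v : Fin K → X) (u u' : X),
      L (Function.update x a (Function.update v t0 u)) =
        L (Function.update x a (Function.update v t0 u')) → u = u') :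
    av (fun x => if L x = R x then (1 : ℝ) else 0) ≤ 1 / X.card := by
  have : Nonempty X := hX.to_subtype
  rw [← pUpd ι (Fin K → X) a]
  refine cwg_le _ _ fun x => ?_
  rw [← pUpd (Fin K) X t0]
  refine cwg_le _ _ fun v => ?_
  refine (cwg_one _ fun u u' hu hu' => ?_).trans (le_of_eq ?_)
  · refine hL x v u u' ?_
    rw [hu, hu', hR, hR]
  · rw [Fintype.card_coe]

theorem inc_upd {G : Type} [AddCommGroup G] {X : Finset G} {K : ℕ} (n : ℕ) (hn : 1 ≤ n)
    (v : Fin K → X) (t0 : Fin K) (ht0 : (t0 : ℕ) = 0) (u u' : X) :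
    inc n (Function.update v t0 u) - inc n (Function.update v t0 u') = (u : G) - (u' : G) := by
  unfold inc
  rw [← Finset.sum_sub_distrib, Finset.sum_eq_single t0]
  · rw [Function.update_self, Function.update_self, if_pos (by omega), if_pos (by omega)]
  · intro t _ ht
    rw [Function.update_of_ne ht, Function.update_of_ne ht, sub_self]
  · intro h
    exact absurd (mem_univ _) h

theorem mu_pos (k m : ℕ) (i : Fin k) : 1 ≤ mu k m i := by
  unfold mu
  split_ifs <;> omega

/-- difference of two values of a form whose arguments differ at the vertex i -/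
theorem frw_diff {G : Type} [AddCommGroup G] {X : Finset G} {K k : ℕ} (m : ℕ) (j i : Fin k)
    (x y : Fin k → Fin K → X) (h : ∀ l, l ≠ i → x l = y l) :
    frw m j x - frw m j y = (((i : ℕ) : ℤ) - ((j : ℕ) : ℤ)) •
      (inc (mu k m i) (x i) - inc (mu k m i) (y i)) := by
  unfold frw
  rw [← Finset.sum_sub_distrib, Finset.sum_eq_single i]
  · rw [smul_sub]
  · intro l _ hl
    rw [h l hl, sub_self]
  · intro h
    exact absurd (mem_univ _) h

/-- a form with a changed variable -/
theorem cwg_inj {G : Type} [AddCommGroup G] [Fintype G] {X : Finset G} {k : ℕ} (m K : ℕ)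
    (hinj : ∀ n : ℕ, 1 ≤ n → n < k → Function.Injective (fun x : G => n • x)) (t0 : Fin K)
    (ht0 : (t0 : ℕ) = 0) (j i : Fin k) (hij : i ≠ j) (σ : Fin k → Bool)
    (x : Fin k × Bool → Fin K → X) (v : Fin K → X) (u u' : X)
    (h : frw m j (pk σ (Function.update x (i, σ i) (Function.update v t0 u))) =
      frw m j (pk σ (Function.update x (i, σ i) (Function.update v t0 u')))) : u = u' := by
  have h1 := frw_diff m j i (pk σ (Function.update x (i, σ i) (Function.update v t0 u)))
    (pk σ (Function.update x (i, σ i) (Function.update v t0 u'))) (by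
      intro l hl
      unfold pk
      have hne : (l, σ l) ≠ (i, σ i) := fun e => hl (congrArg Prod.fst e)
      rw [Function.update_of_ne hne, Function.update_of_ne hne])
  rw [h, sub_self] at h1
  have h2 : pk σ (Function.update x (i, σ i) (Function.update v t0 u)) i = Function.update v t0 u := by
    unfold pk
    rw [Function.update_self]
  have h3 : pk σ (Function.update x (i, σ i) (Function.update v t0 u')) i =
      Function.update v t0 u' := by
    unfold pk
    rw [Function.update_self]
  rw [h2, h3, inc_upd _ (mu_pos k m i) v t0 ht0] at h1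
  have h4 : (u : G) - (u' : G) = 0 := by
    have hne : ((i : ℕ) : ℤ) - ((j : ℕ) : ℤ) ≠ 0 := by
      intro e
      exact hij (Fin.ext (by omega))
    obtain ⟨n, hn⟩ : ∃ n : ℕ, n = (((i : ℕ) : ℤ) - ((j : ℕ) : ℤ)).natAbs := ⟨_, rfl⟩
    have hn1 : 1 ≤ n := by omega
    have hnk : n < k := by
      have := i.isLt
      have := j.isLt
      omega
    have h5 : (n : ℤ) • ((u : G) - (u' : G)) = 0 := by
      rcases Int.natAbs_eq (((i : ℕ) : ℤ) - ((j : ℕ) : ℤ)) with he | he
      · rw [hn, ← he]
        exact h1.symm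
      · have h6 : ((n : ℕ) : ℤ) = -(((i : ℕ) : ℤ) - ((j : ℕ) : ℤ)) := by omega
        rw [h6, neg_smul, ← h1, neg_zero]
    rw [natCast_zsmul] at h5
    exact hinj n hn1 hnk (by simpa using h5)
  exact Subtype.ext (sub_eq_zero.1 h4)

/-- a form does not depend on other variables -/
theorem cwg_ind {G : Type} [AddCommGroup G] {X : Finset G} {k K : ℕ} (m : ℕ) (j i : Fin k)
    (c : Bool) (σ : Fin k → Bool) (h : i = j ∨ σ i ≠ c) (x : Fin k × Bool → Fin K → X)
    (v : Fin K → X) : frw m j (pk σ (Function.update x (i, c) v)) = frw m j (pk σ x) := by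
  unfold frw
  refine Finset.sum_congr rfl fun l _ => ?_
  by_cases hl : l = i
  · subst hl
    rcases h with h | h
    · rw [h, sub_self, zero_smul, zero_smul]
    · unfold pk
      have hne : (l, σ l) ≠ (l, c) := fun e => h (congrArg Prod.snd e)
      rw [Function.update_of_ne hne]
  · unfold pk
    have hne : (l, σ l) ≠ (i, c) := fun e => hl (congrArg Prod.fst e)
    rw [Function.update_of_ne hne]

theorem pCwg : CwgStmt := by
  intro k G _ _ _ X m K hk hX hK hinj p p' hp hp'
  obtain ⟨j, σ⟩ := p
  obtain ⟨j', σ'⟩ := p'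
  simp only at hp hp' ⊢
  have : Nonempty X := hX.to_subtype
  let t0 : Fin K := ⟨0, hK⟩
  have ht0 : (t0 : ℕ) = 0 := rfl
  constructor
  · intro hne
    by_cases hj : j = j'
    · subst hj
      obtain ⟨i, hi⟩ : ∃ i, σ i ≠ σ' i := by
        by_contra hcon
        push Not at hcon
        exact hne (by rw [funext hcon])
      have hij : i ≠ j := by
        rintro rfl
        exact hi (hp.trans hp'.symm)
      exact cwg_core hX (fun x => frw m j (pk σ x)) (fun x => frw m j (pk σ' x)) (i, σ i) t0
        (fun x v => cwg_ind m j i (σ i) σ' (Or.inr (Ne.symm hi)) x v)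
        (fun x v u u' h => cwg_inj m K hinj t0 ht0 j i hij σ x v u u' h)
    · have h1 := cwg_core hX (fun x : Fin k × Bool → Fin K → X => frw m j' (pk σ' x))
        (fun x => frw m j (pk σ x)) (j, σ' j) t0
        (fun x v => cwg_ind m j j (σ' j) σ (Or.inl rfl) x v)
        (fun x v u u' h => cwg_inj m K hinj t0 ht0 j' j hj σ' x v u u' h)
      refine le_trans (le_of_eq ?_) h1
      congr 1
      funext x
      simp only [eq_comm]
  · have hnt : Nontrivial (Fin k) := Fin.nontrivial_iff_two_le.2 hk
    obtain ⟨i, hi⟩ := exists_ne j'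
    rw [GP.Asm.lf2_av_prod (fun y z : Fin k × Bool → Fin K → X =>
      if frw m j (pk σ y) = frw m j' (pk σ' z) then (1 : ℝ) else 0)]
    refine cwg_le _ _ fun y => ?_
    have h1 := cwg_core hX (fun x : Fin k × Bool → Fin K → X => frw m j' (pk σ' x))
        (fun _ => frw m j (pk σ y)) (i, σ' i) t0 (fun x v => rfl)
        (fun x v u u' h => cwg_inj m K hinj t0 ht0 j' i hi σ' x v u u' h)
    refine le_trans (le_of_eq ?_) h1
    congr 1
    funext x
    simp only [eq_comm]

end Pool.Agent.Lib.MP_9f2731_nt.QL.Aw
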