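import Pool.Agent.Lib.MP_9f2731_nt.QL.Aw.Spec
import Pool.Agent.Lib.MP_9f2731_nt.GP.Rel.Upd

/-!
MP_9f2731_nt, QL/Aw/Dgv: nonzero difference.
-/

namespace Pool.Agent.Lib.MP_9f2731_nt.QL.Aw

open Finset
open Pool.Agent.Lib.MP_9f2731_nt.GP
open Pool.Agent.Lib.MP_9f2731_nt.GP.Rel
open Pool.Agent.Lib.MP_9f2731_nt.QL

/-- the entry 0 occurs in inc with coefficient 1 -/
private theorem Dgv_inc {G : Type} [AddCommGroup G] {X : Finset G} {K : ℕ} (n : ℕ) (s : Fin K)
    (hs : (s : ℕ) < n) (v : Fin K → X) (u : X) :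
    inc n (Function.update v s u) = (u : G) +
      ∑ t ∈ univ.erase s, if (t : ℕ) < n then ((v t : X) : G) else 0 := by
  unfold inc
  rw [← Finset.add_sum_erase univ _ (mem_univ s), if_pos hs, Function.update_self]
  congr 1
  refine Finset.sum_congr rfl fun t ht => ?_
  rw [Function.update_of_ne (Finset.ne_of_mem_erase ht)]

private theorem Dgv_mono {α : Type} [Fintype α] {g h : α → ℝ} (hgh : ∀ x, g x ≤ h x) :
    av g ≤ av h := by
  unfold av
  exact div_le_div_of_nonneg_right (Finset.sum_le_sum fun x _ => hgh x) (Nat.cast_nonneg _)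

private theorem Dgv_const {α : Type} [Fintype α] [Nonempty α] (c : ℝ) :
    av (fun _ : α => c) = c := by
  unfold av
  rw [Finset.sum_const, Finset.card_univ, nsmul_eq_mul]
  have : (Fintype.card α : ℝ) ≠ 0 := Nat.cast_ne_zero.2 Fintype.card_ne_zero
  field_simp

open Classical in
/-- the mean over one entry -/
private theorem Dgv_one {G : Type} [AddCommGroup G] {X : Finset G} (g : G) :
    av (fun u : X => if (u : G) + g = 0 then (1 : ℝ) else 0) ≤ 1 / X.card := by
  unfold av
  rw [Fintype.card_coe]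
  refine div_le_div_of_nonneg_right ?_ (Nat.cast_nonneg _)
  rw [← Finset.sum_filter, Finset.sum_const, nsmul_eq_mul, mul_one]
  have : (univ.filter (fun u : X => (u : G) + g = 0)).card ≤ 1 := by
    rw [Finset.card_le_one]
    intro a ha b hb
    have h1 := (Finset.mem_filter.1 ha).2
    have h2 := (Finset.mem_filter.1 hb).2
    exact Subtype.ext (add_right_cancel (h1.trans h2.symm))
  exact_mod_cast this

open Classical in
theorem pDgv : DgvStmt := by
  intro k m K G _ _ X f F c hk hK hX hf hF hc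
  by_contra hcon
  push Not at hcon
  have hXne : Nonempty X := hX.to_subtype
  have hGne : Nonempty G := ⟨0⟩
  have hF0 : 0 ≤ F := (hf 0).1.trans (hf 0).2
  obtain ⟨a, ha⟩ : ∃ a : Fin k, (a : ℕ) = 0 := ⟨⟨0, by omega⟩, rfl⟩
  obtain ⟨s, hs⟩ : ∃ s : Fin K, (s : ℕ) = 0 := ⟨⟨0, by omega⟩, rfl⟩
  have hmu : (s : ℕ) < mu k m a := by
    unfold mu
    rw [if_pos ha, hs]
    omega
  -- pointwise bound
  have h1 : ∀ (e : G) (x : Fin k → Fin K → X), ∏ j : Fin k, f (e + frw m j x) ≤
      F ^ k * (if (∑ i, inc (mu k m i) (x i)) = 0 then (1 : ℝ) else 0) := by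
    intro e x
    split_ifs with h
    · rw [mul_one]
      calc ∏ j : Fin k, f (e + frw m j x) ≤ ∏ _j : Fin k, F :=
            Finset.prod_le_prod (fun j _ => (hf _).1) fun j _ => (hf _).2
        _ = F ^ k := by rw [Finset.prod_const, Finset.card_univ, Fintype.card_fin]
    · obtain ⟨j, hj⟩ := hcon e x h
      rw [Finset.prod_eq_zero (mem_univ j) hj, mul_zero]
  -- the proportion of the degenerate tuples
  have h2 : av (fun x : Fin k → Fin K → X =>
      if (∑ i, inc (mu k m i) (x i)) = 0 then (1 : ℝ) else 0) ≤ 1 / X.card := by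
    rw [← pUpd (Fin k) (Fin K → X) a]
    refine (Dgv_mono fun x => ?_).trans (le_of_eq (Dgv_const _))
    rw [← pUpd (Fin K) X s (fun v : Fin K → X =>
      if (∑ i, inc (mu k m i) (Function.update x a v i)) = 0 then (1 : ℝ) else 0)]
    refine (Dgv_mono fun v => ?_).trans (le_of_eq (Dgv_const _))
    have h3 : ∀ u : X, (∑ i, inc (mu k m i) (Function.update x a (Function.update v s u) i)) =
        (u : G) + ((∑ t ∈ univ.erase s, if (t : ℕ) < mu k m a then ((v t : X) : G) else 0) +
          ∑ i ∈ univ.erase a, inc (mu k m i) (x i)) := by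
      intro u
      rw [← Finset.add_sum_erase univ _ (mem_univ a), Function.update_self, Dgv_inc _ s hmu v u,
        add_assoc]
      congr 2
      refine Finset.sum_congr rfl fun i hi => ?_
      rw [Function.update_of_ne (Finset.ne_of_mem_erase hi)]
    simp only [h3]
    exact Dgv_one _
  have h4 : av (fun e : G => av (fun x : Fin k → Fin K → X => ∏ j : Fin k, f (e + frw m j x))) ≤
      F ^ k / X.card := by
    refine (Dgv_mono fun e => ?_).trans (le_of_eq (Dgv_const _))
    refine (Dgv_mono fun x => h1 e x).trans ?_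
    have h5 : av (fun x : Fin k → Fin K → X =>
        F ^ k * (if (∑ i, inc (mu k m i) (x i)) = 0 then (1 : ℝ) else 0)) =
        F ^ k * av (fun x : Fin k → Fin K → X =>
          if (∑ i, inc (mu k m i) (x i)) = 0 then (1 : ℝ) else 0) := by
      unfold av
      rw [← Finset.mul_sum, mul_div_assoc]
    rw [h5]
    calc F ^ k * _ ≤ F ^ k * (1 / X.card) := mul_le_mul_of_nonneg_left h2 (pow_nonneg hF0 k)
      _ = F ^ k / X.card := by rw [mul_one_div]
  linarith

end Pool.Agent.Lib.MP_9f2731_nt.QL.Aw
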