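import Pool.Agent.Lib.MP_9f2731_nt.QL.Aw.Spec

/-!
MP_9f2731_nt, QL/Aw, module Fia (helper78): positive proportion.
-/

namespace Pool.Agent.Lib.MP_9f2731_nt.QL.Aw

open Finset
open Pool.Agent.Lib.MP_9f2731_nt.GP
open Pool.Agent.Lib.MP_9f2731_nt.GP.Rel
open Pool.Agent.Lib.MP_9f2731_nt.QL

theorem pFia (h : MainStmt) : FiaStmt := by
  classical
  intro k
  obtain ⟨c, X0, hc, hX⟩ := h (max k 3) 1 (le_max_right _ _) one_pos
  refine ⟨c, hc, X0, fun X hX0 => ?_⟩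
  obtain ⟨V, Bm, hV, -, hBm, hP⟩ := hX X hX0
  have h1 := hP (fun _ => True) fun m _ => by
    rw [one_mul]
    refine le_of_eq ?_
    congr 2
    ext b
    simp
  refine h1.trans ?_
  rw [← Set.ncard_coe_finset, Nat.cast_le]
  refine Set.ncard_le_ncard ?_ ((Set.finite_Icc 1 X).subset fun a ha => ⟨ha.1, ha.2.1⟩)
  intro b hb
  rw [coe_filter, Set.mem_ofPred_eq, mem_Icc] at hb
  obtain ⟨⟨hb1, hb2⟩, m, hm, r, hr2, hrX, hp⟩ := hb
  obtain ⟨hm1, hmX, -⟩ := hBm m hm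
  refine ⟨hb1, hb2, V * m, Nat.one_le_iff_ne_zero.2 (Nat.mul_ne_zero (by omega) (by omega)), hmX,
    r, hr2, hrX, fun i hi => ?_⟩
  have h2 := (hp i (lt_of_lt_of_le hi (le_max_left _ _))).1
  rwa [show V * b * m = b * (V * m) by ring] at h2

end Pool.Agent.Lib.MP_9f2731_nt.QL.Aw
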