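import Pool.Agent.Lib.MP_9f2731_nt.QL.Aw.Spec

/-!
MP_9f2731_nt, QL/Aw, module Fib (helper78): almost all primes.
-/

namespace Pool.Agent.Lib.MP_9f2731_nt.QL.Aw

open Finset
open Pool.Agent.Lib.MP_9f2731_nt.GP
open Pool.Agent.Lib.MP_9f2731_nt.GP.Rel
open Pool.Agent.Lib.MP_9f2731_nt.QL

open Classical in
theorem pFib (h : MainStmt) : FibStmt := by
  intro k δ hδ
  obtain ⟨c, X0, hc, hX⟩ := h (max k 3) δ (le_max_right _ _) hδ
  refine ⟨max X0 1, fun X hX0 => ?_⟩
  obtain ⟨V, Bm, hV, -, hBm, hP⟩ := hX X ((le_max_left _ _).trans hX0)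
  have hX1 : (1 : ℝ) ≤ X := (le_max_right _ _).trans hX0
  have hex : ∃ m ∈ Bm, (((Icc 1 X).filter (fun b => (V * b * m + 1).Prime ∧
      ¬ StQ k X (V * b * m))).card : ℝ) ≤
      δ * (((Icc 1 X).filter (fun b => (V * b * m + 1).Prime)).card : ℝ) := by
    by_contra hcon
    push Not at hcon
    have h1 := hP (fun n => ¬ StQ k X n) fun m hm => by
      refine le_trans (le_of_eq ?_) ((hcon m hm).le.trans (le_of_eq ?_))
      · refine congrArg (fun t : ℕ => δ * (t : ℝ)) (congrArg Finset.card ?_)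
        ext b
        simp only [mem_filter]
      · refine congrArg (fun t : ℕ => (t : ℝ)) (congrArg Finset.card ?_)
        ext b
        simp only [mem_filter]
    have h2 : 0 < c * X := by positivity
    have h3 := h2.trans_le h1
    rw [Nat.cast_pos, card_pos] at h3
    obtain ⟨b, hb⟩ := h3
    rw [mem_filter, mem_Icc] at hb
    obtain ⟨⟨hb1, hb2⟩, m, hm, r, hr2, hrX, hp⟩ := hb
    have h4 := (hp 0 (by have := le_max_right k 3; omega)).2
    rw [pow_zero, mul_one] at h4
    exact h4 ⟨r, hr2, hrX, fun i hi => (hp i (lt_of_lt_of_le hi (le_max_left _ _))).1⟩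
  obtain ⟨m, hm, hle⟩ := hex
  obtain ⟨hm1, hmX, hcnt⟩ := hBm m hm
  refine ⟨V * m, Nat.one_le_iff_ne_zero.2 (Nat.mul_ne_zero (by omega) (by omega)), hmX, ?_, ?_⟩
  · refine hcnt.trans (le_of_eq ?_)
    refine congrArg (fun t : ℕ => (t : ℝ)) (congrArg Finset.card ?_)
    ext b
    rw [mem_filter, mem_filter, show V * m * b = V * b * m by ring]
  · refine le_trans (le_of_eq ?_) (hle.trans (le_of_eq ?_))
    · refine congrArg (fun t : ℕ => (t : ℝ)) (congrArg Finset.card ?_)
      ext b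
      rw [mem_filter, mem_filter, show V * m * b = V * b * m by ring]
    · refine congrArg (fun t : ℕ => δ * (t : ℝ)) (congrArg Finset.card ?_)
      ext b
      rw [mem_filter, mem_filter, show V * m * b = V * b * m by ring]

end Pool.Agent.Lib.MP_9f2731_nt.QL.Aw
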