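import Pool.Agent.Lib.MP_9f2731_nt.QL.Aw.Spec

/-!
MP_9f2731_nt, QL/Aw, module MjV: the majorant.
-/

namespace Pool.Agent.Lib.MP_9f2731_nt.QL.Aw

open Finset
open Pool.Agent.Lib.MP_9f2731_nt.GP
open Pool.Agent.Lib.MP_9f2731_nt.GP.Rel
open Pool.Agent.Lib.MP_9f2731_nt.GP.Asm (eb)
open Pool.Agent.Lib.MP_9f2731_nt.QL

private theorem mjV_Lam (l : ℕ) (R : ℝ) (n : ℕ) (hR : 1 ≤ R) (hn : n.Prime) (hRn : R < n) :
    Lam l R n = 1 := by
  unfold Lam
  have h : n.divisors.filter (fun d : ℕ => (d : ℝ) ≤ R) = {1} := by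
    ext d
    rw [Finset.mem_filter, Nat.mem_divisors, Finset.mem_singleton]
    constructor
    · rintro ⟨⟨h1, -⟩, h2⟩
      rcases (Nat.dvd_prime hn).1 h1 with h3 | h3
      · exact h3
      · subst h3
        exact absurd h2 (not_le.2 hRn)
    · rintro rfl
      refine ⟨⟨one_dvd n, hn.ne_zero⟩, ?_⟩
      rw [Nat.cast_one]
      exact hR
  rw [h, Finset.sum_singleton]
  simp

/-- Module MjV. -/
theorem pMjV : MjVStmt := by
  intro P V κ T M q K X b x hV hκ hκ1 hX hq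
  have hX1 : (1 : ℝ) ≤ (X : ℝ) := by exact_mod_cast hX
  have hR : (1 : ℝ) ≤ (X : ℝ) ^ κ := Real.one_le_rpow hX1 hκ.le
  have hlR : 0 ≤ Real.log ((X : ℝ) ^ κ) := Real.log_nonneg hR
  have hlX : 0 ≤ Real.log (X : ℝ) := Real.log_nonneg hX1
  have hV0 : (0 : ℝ) < V := by exact_mod_cast hV
  have hφ0 : 0 ≤ (V.totient / V : ℝ) := by positivity
  have hφ1 : (V.totient / V : ℝ) ≤ 1 := by
    rw [div_le_one hV0]
    exact_mod_cast Nat.totient_le V
  have hc : 0 ≤ (V.totient / V : ℝ) * Real.log ((X : ℝ) ^ κ) * (3 / 4) := by positivity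
  have hc1 : (V.totient / V : ℝ) * Real.log ((X : ℝ) ^ κ) * (3 / 4) ≤ Real.log X := by
    have h1 : Real.log ((X : ℝ) ^ κ) ≤ Real.log X := by
      rw [Real.log_rpow (by linarith)]
      calc κ * Real.log X ≤ 1 * Real.log X := mul_le_mul_of_nonneg_right hκ1.le hlX
        _ = Real.log X := one_mul _
    have h2 : (V.totient / V : ℝ) * Real.log ((X : ℝ) ^ κ) ≤ 1 * Real.log X :=
      mul_le_mul hφ1 h1 hlR zero_le_one
    nlinarith
  have hnu : 0 ≤ nuv V κ q X b x := by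
    unfold nuv nuV
    exact mul_nonneg hc (sq_nonneg _)
  by_cases h : (∀ j, (x j).val + K < M) ∧ (X : ℝ) ^ κ < (b : ℝ) ∧
      (V * b * mltv q x + 1).Prime ∧ P (V * b * mltv q x)
  · have hf : fbv P V κ q K X b x =
        (V.totient / V : ℝ) * Real.log ((X : ℝ) ^ κ) * (3 / 4) := by
      unfold fbv
      rw [if_pos h]
    rw [hf]
    refine ⟨hc, ?_, hc1⟩
    have hm : 1 ≤ mltv q x := by
      unfold mltv
      refine Finset.one_le_prod' ?_
      intro j _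
      exact Nat.one_le_pow _ _ (hq j).pos
    have hbn : b ≤ V * b * mltv q x := by
      calc b = 1 * b * 1 := by ring
        _ ≤ V * b * mltv q x := Nat.mul_le_mul (Nat.mul_le_mul hV le_rfl) hm
    have hlt : (X : ℝ) ^ κ < ((V * b * mltv q x + 1 : ℕ) : ℝ) := by
      refine lt_of_lt_of_le h.2.1 ?_
      exact_mod_cast Nat.le_succ_of_le hbn
    unfold nuv nuV
    rw [mjV_Lam 2 _ _ hR h.2.2.1 hlt, one_pow, mul_one]
  · have hf : fbv P V κ q K X b x = 0 := by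
      unfold fbv
      rw [if_neg h]
    rw [hf]
    exact ⟨le_rfl, hnu, hlX⟩

end Pool.Agent.Lib.MP_9f2731_nt.QL.Aw
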