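import Pool.Agent.Lib.MP_9f2731_nt.QL.Aw.Spec

/-!
MP_9f2731_nt, QL/Aw, module MlV: the multipliers of the points of the exponent lattice.
-/

namespace Pool.Agent.Lib.MP_9f2731_nt.QL.Aw

open Finset
open Pool.Agent.Lib.MP_9f2731_nt.GP
open Pool.Agent.Lib.MP_9f2731_nt.GP.Rel
open Pool.Agent.Lib.MP_9f2731_nt.GP.Asm (eb)
open Pool.Agent.Lib.MP_9f2731_nt.QL

private theorem mlV_fact {T : ℕ} {q : Fin T → ℕ} (hq : ∀ j, (q j).Prime)
    (hi : Function.Injective q) (e : Fin T → ℕ) (i : Fin T) :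
    (∏ j, q j ^ e j).factorization (q i) = e i := by
  rw [Nat.factorization_prod fun j _ => pow_ne_zero _ (hq j).ne_zero, Finsupp.finsetSum_apply,
    Finset.sum_eq_single i]
  · rw [(hq i).factorization_pow, Finsupp.single_eq_same]
  · intro j _ hj
    rw [(hq j).factorization_pow, Finsupp.single_eq_of_ne]
    intro h
    first
      | exact hj (hi h)
      | exact hj (hi h.symm)
  · intro h
    exact absurd (Finset.mem_univ i) h

private theorem mlV_dvd {T : ℕ} {q : Fin T → ℕ} (hq : ∀ j, (q j).Prime) (e : Fin T → ℕ) {p : ℕ}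
    (hp : p.Prime) (h : p ∣ ∏ j, q j ^ e j) : ∃ j, p = q j := by
  obtain ⟨j, _, hj⟩ := (Prime.dvd_finsetProd_iff hp.prime _).1 h
  exact ⟨j, (Nat.prime_dvd_prime_iff_eq hp (hq j)).1 (hp.dvd_of_dvd_pow hj)⟩

private theorem mlV_log {T : ℕ} {q : Fin T → ℕ} (hq : ∀ j, (q j).Prime) (e : Fin T → ℕ) (E : ℝ)
    (hE : ∀ j, (e j : ℝ) ≤ E) (Q : ℕ) (hQ : ∀ j, q j ≤ Q) :
    Real.log ((∏ j, q j ^ e j : ℕ) : ℝ) ≤ T * E * Real.log Q := by
  rw [Nat.cast_prod, Real.log_prod]
  · calc ∑ j : Fin T, Real.log ((q j ^ e j : ℕ) : ℝ) ≤ ∑ _j : Fin T, E * Real.log Q := by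
          refine Finset.sum_le_sum fun j _ => ?_
          rw [Nat.cast_pow, Real.log_pow]
          have h1 : (1 : ℝ) ≤ q j := by exact_mod_cast (hq j).one_lt.le
          have h2 : 0 ≤ Real.log (q j) := Real.log_nonneg h1
          have h3 : Real.log (q j) ≤ Real.log Q :=
            Real.log_le_log (by linarith) (by exact_mod_cast hQ j)
          have h4 : (0 : ℝ) ≤ e j := Nat.cast_nonneg _
          exact mul_le_mul (hE j) h3 h2 (h4.trans (hE j))
      _ = T * E * Real.log Q := by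
          rw [Finset.sum_const, Finset.card_univ, Fintype.card_fin, nsmul_eq_mul]
          ring
  · intro j _
    have : q j ^ e j ≠ 0 := pow_ne_zero _ (hq j).ne_zero
    exact_mod_cast this

/-- Module MlV. -/
theorem pMlV : MlVStmt := by
  intro T q hq hi M _
  refine ⟨?_, fun V hV x => ⟨?_, fun p hp hpd => ?_⟩, fun Q hQ x => ?_⟩
  · intro x y hxy
    funext j
    apply ZMod.val_injective M
    rw [← mlV_fact hq hi (fun j => (x j).val) j, ← mlV_fact hq hi (fun j => (y j).val) j]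
    exact congrArg (fun n => Nat.factorization n (q j)) hxy
  · exact Nat.one_le_iff_ne_zero.2
      (Finset.prod_ne_zero_iff.2 fun j _ => pow_ne_zero _ (hq j).ne_zero)
  · obtain ⟨j, rfl⟩ := mlV_dvd hq _ hp hpd
    exact hV j
  · refine mlV_log hq _ (M : ℝ) (fun j => ?_) Q hQ
    exact_mod_cast (ZMod.val_lt (x j)).le

end Pool.Agent.Lib.MP_9f2731_nt.QL.Aw
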