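import Pool.Agent.Lib.MP_9f2731_nt.QL.Aw.Cwg

/-!
MP_9f2731_nt, QL/Aw, module MsV (helper78): mean values in mean square.
-/

namespace Pool.Agent.Lib.MP_9f2731_nt.QL.Aw

open Finset
open Pool.Agent.Lib.MP_9f2731_nt.GP
open Pool.Agent.Lib.MP_9f2731_nt.GP.Rel
open Pool.Agent.Lib.MP_9f2731_nt.GP.Asm (eb)
open Pool.Agent.Lib.MP_9f2731_nt.QL

private theorem msv_sum {ι : Type} [DecidableEq ι] (I : Finset ι) (F : ι → ι → ℝ) (ρ : ℝ) (n : ℕ)
    (hρ : 0 ≤ ρ) (hn : I.card ≤ n) (h : ∀ i ∈ I, ∀ i' ∈ I, i ≠ i' → F i i' ≤ ρ) :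
    ∑ i ∈ I, ∑ i' ∈ I.erase i, F i i' ≤ (n : ℝ) ^ 2 * ρ := by
  have hn' : (I.card : ℝ) ≤ n := by exact_mod_cast hn
  have h0 : (0 : ℝ) ≤ I.card := Nat.cast_nonneg _
  calc ∑ i ∈ I, ∑ i' ∈ I.erase i, F i i' ≤ ∑ i ∈ I, (n : ℝ) * ρ := by
        refine Finset.sum_le_sum fun i hi => ?_
        calc ∑ i' ∈ I.erase i, F i i' ≤ ∑ i' ∈ I.erase i, ρ :=
              Finset.sum_le_sum fun i' hi' => h i hi i' (mem_of_mem_erase hi') (ne_of_mem_erase hi').symm
          _ = ((I.erase i).card : ℝ) * ρ := by rw [Finset.sum_const, nsmul_eq_mul]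
          _ ≤ (n : ℝ) * ρ := by
              refine mul_le_mul_of_nonneg_right ?_ hρ
              have h2 : (I.erase i).card ≤ n := (card_le_card (erase_subset _ _)).trans hn
              exact_mod_cast h2
    _ = (I.card : ℝ) * (n * ρ) := by rw [Finset.sum_const, nsmul_eq_mul]
    _ ≤ (n : ℝ) * (n * ρ) := mul_le_mul_of_nonneg_right hn' (by positivity)
    _ = (n : ℝ) ^ 2 * ρ := by ring

private theorem msv_drop1 {W Z : Type} [Fintype W] [Fintype Z] [Nonempty Z] (g : W → Z → ℝ) :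
    av (fun y : W × Z × Z => g y.1 y.2.1) = av (fun y : W × Z => g y.1 y.2) := by
  rw [GP.Asm.lf2_av_prod (fun (w : W) (z : Z × Z) => g w z.1), GP.Asm.lf2_av_prod g]
  congr 1
  funext w
  exact GP.Asm.lf2_av_fst (g w)

private theorem msv_drop2 {W Z : Type} [Fintype W] [Fintype Z] [Nonempty Z] (g : W → Z → ℝ) :
    av (fun y : W × Z × Z => g y.1 y.2.2) = av (fun y : W × Z => g y.1 y.2) := by
  rw [GP.Asm.lf2_av_prod (fun (w : W) (z : Z × Z) => g w z.2), GP.Asm.lf2_av_prod g]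
  congr 1
  funext w
  exact GP.Asm.lf2_av_snd (g w)

theorem msv_add {A : Type} [Fintype A] (f g : A → ℝ) : av (fun x => f x + g x) = av f + av g := by
  unfold av
  rw [Finset.sum_add_distrib, add_div]

/-- the mean square of F - 1 -/
theorem msv_sq {A : Type} [Fintype A] [Nonempty A] (F : A → ℝ) :
    av (fun e => (F e - 1) ^ 2) = av (fun e => F e ^ 2) - 2 * av F + 1 := by
  have h : (fun e => (F e - 1) ^ 2) = fun e => F e ^ 2 + ((-2) * F e + 1) := by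
    funext e
    ring
  rw [h, msv_add, msv_add, GP.Asm.lf2_av_mul, GP.Asm.lf2_av_const]
  ring

private theorem msv_eb (X : ℕ) (hX : 1 ≤ X) (f g : ℕ → ℝ) :
    eb X (fun b => f b - 2 * g b + 1) = (eb X f - 1) - 2 * (eb X g - 1) := by
  have hX' : (X : ℝ) ≠ 0 := by
    have : 0 < X := hX
    positivity
  unfold GP.Asm.eb
  have h1 : ∑ b ∈ Icc 1 X, (f b - 2 * g b + 1) =
      (∑ b ∈ Icc 1 X, f b) - 2 * (∑ b ∈ Icc 1 X, g b) + X := by
    rw [Finset.sum_add_distrib, Finset.sum_sub_distrib, ← Finset.mul_sum]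
    simp
  rw [h1]
  field_simp
  ring

theorem pMsV (h1 : GnVStmt) (h2 : GroStmt) : MsVStmt := by
  intro J hJ
  obtain ⟨κ, C2, hκ0, hκ1, hC2, h⟩ := h1 J hJ
  refine ⟨κ, ⌈2 * (C2 + 1)⌉₊, hκ0, hκ1, fun θ hθ => ?_⟩
  obtain ⟨w1, hw1⟩ := h (θ / 8) (by positivity)
  refine ⟨w1, fun A E hA hA0 hE => ?_⟩
  obtain ⟨X1, hX1⟩ := hw1 A E hA hE
  have hJ0 : (1 : ℝ) ≤ J := by exact_mod_cast hJ
  have hA' : 2 * (C2 + 1) ≤ (A : ℝ) := (Nat.le_ceil _).trans (by exact_mod_cast hA0)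
  obtain ⟨X2, hX2⟩ := h2 A E w1 3 1 (θ / (8 * (J : ℝ) ^ 2)) C2 hA hE one_pos (by positivity) hA'
  refine ⟨max X1 X2, fun X hX T M w p0 V _ q hS => ?_⟩
  rw [max_le_iff] at hX
  obtain ⟨g1, -, -, -, -, -, -, -, -, -, -, -, -, -, g15⟩ := hX2 X hX.2 T M w p0 V q hS
  have hlog : 0 < Real.log X := Real.log_pos (by exact_mod_cast (by omega : 1 < X))
  intro W Z ι _ _ _ _ _ I ψ hI hc1 hc2
  have hρ : (0 : ℝ) ≤ (1 / 2 : ℝ) ^ T := by positivity
  have hpow : 0 ≤ (Real.log X) ^ C2 := Real.rpow_nonneg hlog.le _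
  -- bound of the error terms
  have hend : ∀ t : ℝ, t ≤ (J : ℝ) ^ 2 * (1 / 2 : ℝ) ^ T →
      θ / 8 + (Real.log X) ^ C2 * t ≤ θ / 4 := by
    intro t ht
    have h3 : (Real.log X) ^ C2 * t ≤ (J : ℝ) ^ 2 * (θ / (8 * (J : ℝ) ^ 2)) := by
      calc (Real.log X) ^ C2 * t ≤ (Real.log X) ^ C2 * ((J : ℝ) ^ 2 * (1 / 2 : ℝ) ^ T) :=
            mul_le_mul_of_nonneg_left ht hpow
        _ = (J : ℝ) ^ 2 * ((Real.log X) ^ C2 * (1 / 2 : ℝ) ^ T) := by ring
        _ ≤ (J : ℝ) ^ 2 * (θ / (8 * (J : ℝ) ^ 2)) := mul_le_mul_of_nonneg_left g15 (by positivity)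
    have h4 : (J : ℝ) ^ 2 * (θ / (8 * (J : ℝ) ^ 2)) = θ / 8 := by
      field_simp
    linarith
  have hA1 := hX1 X hX.1 T M w p0 V q hS (W × Z) ι I (fun i y => ψ i y.1 y.2) (by omega)
  have hA2 := hA1.trans (hend _ (msv_sum I _ _ J hρ (by omega) hc1))
  have hB1 := hX1 X hX.1 T M w p0 V q hS (W × Z × Z) (Bool × ι) (univ ×ˢ I)
    (fun c y => if c.1 then ψ c.2 y.1 y.2.2 else ψ c.2 y.1 y.2.1)
    (by
      rw [Finset.card_product, Finset.card_univ, Fintype.card_bool]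
      exact hI)
  have hB2 := hB1.trans (hend _ (msv_sum (univ ×ˢ I) _ _ J hρ (by
      rw [Finset.card_product, Finset.card_univ, Fintype.card_bool]
      exact hI) (by
    rintro ⟨c, i⟩ hi ⟨c', i'⟩ hi' hne
    have hiI : i ∈ I := (Finset.mem_product.1 hi).2
    have hiI' : i' ∈ I := (Finset.mem_product.1 hi').2
    rcases c with _ | _ <;> rcases c' with _ | _
    · have hne' : i ≠ i' := fun h => hne (by rw [h])
      simp only [Bool.false_eq_true, if_false]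
      rw [msv_drop1 (fun (w : W) (z : Z) => if ψ i w z = ψ i' w z then (1 : ℝ) else 0)]
      exact hc1 i hiI i' hiI' hne'
    · simp only [Bool.false_eq_true, if_false, if_true]
      exact hc2 i hiI i' hiI'
    · simp only [Bool.false_eq_true, if_false, if_true]
      refine le_trans (le_of_eq ?_) (hc2 i' hiI' i hiI)
      congr 1
      funext y
      simp only [eq_comm]
    · have hne' : i ≠ i' := fun h => hne (by rw [h])
      simp only [if_true]
      rw [msv_drop2 (fun (w : W) (z : Z) => if ψ i w z = ψ i' w z then (1 : ℝ) else 0)]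
      exact hc1 i hiI i' hiI' hne')))
  set F : ℕ → W → ℝ := fun b e => av (fun z : Z => ∏ i ∈ I, nuv V κ q X b (ψ i e z)) with hF
  have e1 : ∀ b, av (fun y : W × Z => ∏ i ∈ I, nuv V κ q X b (ψ i y.1 y.2)) = av (F b) := fun b =>
    GP.Asm.lf2_av_prod (fun (e : W) (z : Z) => ∏ i ∈ I, nuv V κ q X b (ψ i e z))
  have e2 : ∀ b, av (fun y : W × Z × Z => ∏ c ∈ (univ : Finset Bool) ×ˢ I,
      nuv V κ q X b (if c.1 then ψ c.2 y.1 y.2.2 else ψ c.2 y.1 y.2.1)) =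
      av (fun e => F b e ^ 2) := by
    intro b
    have h5 : (fun y : W × Z × Z => ∏ c ∈ (univ : Finset Bool) ×ˢ I,
        nuv V κ q X b (if c.1 then ψ c.2 y.1 y.2.2 else ψ c.2 y.1 y.2.1)) =
        fun y : W × Z × Z => (fun (e : W) (z : Z × Z) => (∏ i ∈ I, nuv V κ q X b (ψ i e z.1)) *
          ∏ i ∈ I, nuv V κ q X b (ψ i e z.2)) y.1 y.2 := by
      funext y
      rw [Finset.prod_product, Fintype.prod_bool]
      simp only [if_true, Bool.false_eq_true, if_false]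
      rw [mul_comm]
    rw [h5, GP.Asm.lf2_av_prod (fun (e : W) (z : Z × Z) => (∏ i ∈ I, nuv V κ q X b (ψ i e z.1)) *
          ∏ i ∈ I, nuv V κ q X b (ψ i e z.2))]
    refine congrArg av ?_
    funext e
    exact GP.Asm.lf2_av_sq (fun z : Z => ∏ i ∈ I, nuv V κ q X b (ψ i e z))
  simp only [e1] at hA2
  simp only [e2] at hB2
  have e3 : (fun b => av (fun e : W => (F b e - 1) ^ 2)) =
      fun b => av (fun e => F b e ^ 2) - 2 * av (F b) + 1 := by
    funext b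
    exact msv_sq (F b)
  show eb X (fun b => av (fun e : W => (F b e - 1) ^ 2)) ≤ θ
  rw [e3, msv_eb X (by omega)]
  have h6 := abs_le.1 hA2
  have h7 := abs_le.1 hB2
  linarith [h6.1, h6.2, h7.1, h7.2]

end Pool.Agent.Lib.MP_9f2731_nt.QL.Aw
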