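import Pool.Agent.Lib.MP_9f2731_nt.QL.Aw.Spec

/-!
MP_9f2731_nt, QL/Aw/PtV: from the lattice to numbers.
-/

namespace Pool.Agent.Lib.MP_9f2731_nt.QL.Aw

open Finset
open Pool.Agent.Lib.MP_9f2731_nt.GP
open Pool.Agent.Lib.MP_9f2731_nt.GP.Rel
open Pool.Agent.Lib.MP_9f2731_nt.QL

/-- the sum of the values of the coordinate t over the entries that occur in the difference -/
private def PtV_D {T M h k K : ℕ} [NeZero M] (m : ℕ) (x : Fin k → Fin K → Xb T M h) (t : Fin T) : ℕ :=
  ∑ i : Fin k, ∑ s : Fin K, if (s : ℕ) < mu k m i then ((x i s : Fin T → ZMod M) t).val else 0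

private theorem PtV_cast {T M h k K : ℕ} [NeZero M] (m : ℕ) (x : Fin k → Fin K → Xb T M h)
    (t : Fin T) : (∑ i, inc (mu k m i) (x i)) t = ((PtV_D m x t : ℕ) : ZMod M) := by
  unfold PtV_D inc
  rw [Finset.sum_apply]
  push_cast
  refine Finset.sum_congr rfl fun i _ => ?_
  rw [Finset.sum_apply]
  refine Finset.sum_congr rfl fun s _ => ?_
  split_ifs with hs
  · simp
  · simp

private theorem PtV_count (K n : ℕ) (c : ℕ) :
    ∑ s : Fin K, (if (s : ℕ) < n then c else 0) ≤ n * c := by
  rw [← Finset.sum_filter, Finset.sum_const, smul_eq_mul]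
  refine Nat.mul_le_mul_right c ?_
  have h1 : (univ.filter (fun s : Fin K => (s : ℕ) < n)).card ≤ (range n).card := by
    refine Finset.card_le_card_of_injOn (fun s : Fin K => (s : ℕ)) ?_ ?_
    · intro s hs
      have := (Finset.mem_filter.1 (Finset.mem_coe.1 hs)).2
      exact Finset.mem_coe.2 (Finset.mem_range.2 this)
    · intro s _ s' _ hss
      exact Fin.ext hss
  rwa [Finset.card_range] at h1

private theorem PtV_mu (k m : ℕ) (hk : 1 ≤ k) : ∑ i : Fin k, mu k m i = k * (m + 1) := by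
  obtain ⟨l, rfl⟩ : ∃ l, k = l + 1 := ⟨k - 1, by omega⟩
  rw [Fin.sum_univ_succ]
  unfold mu
  simp
  ring

private theorem PtV_le {T M h k K : ℕ} [NeZero M] (m : ℕ) (x : Fin k → Fin K → Xb T M h)
    (hk : 1 ≤ k) (t : Fin T) : PtV_D m x t ≤ k * (m + 1) * h := by
  unfold PtV_D
  calc ∑ i : Fin k, ∑ s : Fin K, (if (s : ℕ) < mu k m i then ((x i s : Fin T → ZMod M) t).val else 0)
      ≤ ∑ i : Fin k, ∑ s : Fin K, (if (s : ℕ) < mu k m i then h else 0) := by
        refine Finset.sum_le_sum fun i _ => Finset.sum_le_sum fun s _ => ?_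
        split_ifs with hs
        · have h1 := (x i s).2
          unfold Xb at h1
          exact ((Finset.mem_filter.1 h1).2 t).le
        · exact le_rfl
    _ ≤ ∑ i : Fin k, mu k m i * h := Finset.sum_le_sum fun i _ => PtV_count K _ h
    _ = k * (m + 1) * h := by rw [← Finset.sum_mul, PtV_mu k m hk]

private theorem PtV_frw {G : Type} [AddCommGroup G] {X : Finset G} {K k : ℕ} (m : ℕ)
    (j j' : Fin k) (x : Fin k → Fin K → X) (hj : (j' : ℕ) = j + 1) :
    frw m j x = frw m j' x + ∑ i, inc (mu k m i) (x i) := by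
  unfold frw
  rw [← Finset.sum_add_distrib]
  refine Finset.sum_congr rfl fun i _ => ?_
  rw [hj]
  have : (((i : ℕ) : ℤ) - ((j : ℕ) : ℤ)) = (((i : ℕ) : ℤ) - (((j : ℕ) + 1 : ℕ) : ℤ)) + 1 := by
    push_cast
    ring
  rw [this, add_smul, one_smul]

theorem pPtV : PtVStmt := by
  intro T M h k m K K' _ q hq hk hK hh hK1 hK2 e x hd hval
  have hD : ∀ t, PtV_D m x t ≤ K' := fun t => (PtV_le m x hk t).trans hK1
  -- values along the progression
  have hP : ∀ (i : ℕ) (hi : i < k) (t : Fin T),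
      ((e + frw m ⟨k - 1 - i, by omega⟩ x) t).val =
        ((e + frw m ⟨k - 1, by omega⟩ x) t).val + i * PtV_D m x t := by
    intro i
    induction i with
    | zero =>
      intro _ t
      simp
    | succ i ih =>
      intro hi t
      have h1 := ih (by omega) t
      have h2 : frw m (⟨k - 1 - (i + 1), by omega⟩ : Fin k) x =
          frw m (⟨k - 1 - i, by omega⟩ : Fin k) x + ∑ i, inc (mu k m i) (x i) := by
        refine PtV_frw m _ _ x ?_
        show k - 1 - i = k - 1 - (i + 1) + 1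
        omega
      have h3 : (e + frw m (⟨k - 1 - (i + 1), by omega⟩ : Fin k) x) t =
          (e + frw m (⟨k - 1 - i, by omega⟩ : Fin k) x) t + ((PtV_D m x t : ℕ) : ZMod M) := by
        rw [h2, ← PtV_cast, ← add_assoc]
        rfl
      have h4 := hval ⟨k - 1 - i, by omega⟩ t
      have h5 := hD t
      have h6 : (((PtV_D m x t : ℕ) : ZMod M)).val = PtV_D m x t :=
        ZMod.val_natCast_of_lt (by omega)
      rw [h3, ZMod.val_add_of_lt (by rw [h6]; omega), h6, h1]
      ring
  refine ⟨⟨k - 1, by omega⟩, ∏ t, q t ^ PtV_D m x t, ?_, ?_, ?_⟩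
  · obtain ⟨t, ht⟩ : ∃ t, (∑ i, inc (mu k m i) (x i)) t ≠ 0 := by
      by_contra hcon
      push Not at hcon
      exact hd (funext hcon)
    rw [PtV_cast] at ht
    have h1 : PtV_D m x t ≠ 0 := by
      intro h0
      rw [h0] at ht
      exact ht (by simp)
    have h2 : q t ∣ ∏ t, q t ^ PtV_D m x t :=
      (dvd_pow_self _ h1).trans (Finset.dvd_prod_of_mem (fun t => q t ^ PtV_D m x t) (mem_univ t))
    have h3 : 0 < ∏ t, q t ^ PtV_D m x t := Finset.prod_pos fun t _ => pow_pos (hq t).pos _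
    exact (hq t).two_le.trans (Nat.le_of_dvd h3 h2)
  · intro Q hQ
    rw [Nat.cast_prod, Real.log_prod]
    · calc ∑ t : Fin T, Real.log ((q t ^ PtV_D m x t : ℕ) : ℝ) ≤ ∑ _t : Fin T, (K' : ℝ) * Real.log Q := by
            refine Finset.sum_le_sum fun t _ => ?_
            rw [Nat.cast_pow, Real.log_pow]
            have h1 : (1 : ℝ) ≤ q t := by exact_mod_cast (hq t).one_lt.le
            have h2 : 0 ≤ Real.log (q t) := Real.log_nonneg h1
            have h3 : Real.log (q t) ≤ Real.log Q :=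
              Real.log_le_log (by linarith) (by exact_mod_cast hQ t)
            have h4 : (PtV_D m x t : ℝ) ≤ K' := by exact_mod_cast hD t
            exact mul_le_mul h4 h3 h2 (Nat.cast_nonneg _)
        _ = T * (K' : ℝ) * Real.log Q := by
            rw [Finset.sum_const, Finset.card_univ, Fintype.card_fin, nsmul_eq_mul]
            ring
    · intro t _
      have : q t ^ PtV_D m x t ≠ 0 := pow_ne_zero _ (hq t).ne_zero
      exact_mod_cast this
  · intro i hi
    refine ⟨⟨k - 1 - i, by omega⟩, ?_⟩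
    unfold mltv
    rw [← Finset.prod_pow, ← Finset.prod_mul_distrib]
    refine Finset.prod_congr rfl fun t _ => ?_
    rw [hP i hi t, pow_add, ← pow_mul, mul_comm i]

end Pool.Agent.Lib.MP_9f2731_nt.QL.Aw
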