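import Pool.Agent.Lib.MP_9f2731_nt.QL.Aw.Spec

/-!
MP_9f2731_nt, QL/Aw, module Sce: existence of the scale data.
-/

namespace Pool.Agent.Lib.MP_9f2731_nt.QL.Aw

open Finset
open Pool.Agent.Lib.MP_9f2731_nt.GP
open Pool.Agent.Lib.MP_9f2731_nt.GP.Rel
open Pool.Agent.Lib.MP_9f2731_nt.GP.Asm (eb)
open Pool.Agent.Lib.MP_9f2731_nt.QL

namespace SceAux

/-- Euler's function of V m, when all prime factors of m divide V. -/
theorem tot (V m : ℕ) (hV : 1 ≤ V) (hm : SmV V m) : (V * m).totient = m * V.totient := by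
  have hW : V ≠ 0 := by omega
  have hm0 : m ≠ 0 := by
    have := hm.1
    omega
  have h1 : (V * m).primeFactors = V.primeFactors := by
    rw [Nat.primeFactors_mul hW hm0]
    apply Finset.union_eq_left.mpr
    intro p hp
    have hp1 := Nat.prime_of_mem_primeFactors hp
    have hp2 := Nat.dvd_of_mem_primeFactors hp
    exact Nat.mem_primeFactors.mpr ⟨hp1, hm.2 p hp1 hp2, hW⟩
  have h2 := Nat.totient_eq_mul_prod_factors (V * m)
  have h3 := Nat.totient_eq_mul_prod_factors V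
  rw [h1] at h2
  have h4 : ((V * m).totient : ℚ) = ((m * V.totient : ℕ) : ℚ) := by
    rw [h2]
    push_cast
    rw [h3]
    ring
  exact_mod_cast h4

/-- enough primes -/
theorem prs (A w0 : ℕ) (hA : 1 ≤ A) (L : ℝ) (hL1 : 2 ≤ L) (hLA : 18 * (A : ℝ) ^ 2 ≤ L)
    (hLw : (w0 : ℝ) + 1 ≤ L)
    (hP : ∀ w : ℕ, w0 ≤ w → Real.sqrt w ≤ (((range (w + 1)).filter Nat.Prime).card : ℝ))
    (T w p0 : ℕ) (hT : T = ⌈(A : ℝ) * L⌉₊) (hw : w = ⌊L ^ 5⌋₊) :
    T ≤ ((range (w + 1)).filter (fun p => p.Prime ∧ p ≠ p0)).card := by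
  have hL0 : 0 < L := by linarith
  have hLone : 1 ≤ L := by linarith
  have hA' : (1 : ℝ) ≤ A := by exact_mod_cast hA
  have hw2 : L ^ 5 - 1 < w := by rw [hw]; exact Nat.sub_one_lt_floor _
  have hL5 : L ≤ L ^ 5 := le_self_pow₀ hLone (by norm_num)
  have hww : w0 ≤ w := by
    have : (w0 : ℝ) ≤ w := by linarith
    exact_mod_cast this
  have hT2 : (T : ℝ) + 1 ≤ 3 * A * L := by
    have h1 : (T : ℝ) < A * L + 1 := by rw [hT]; exact Nat.ceil_lt_add_one (by positivity)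
    nlinarith
  have h2 : ((T : ℝ) + 1) ^ 2 ≤ w := by
    calc ((T : ℝ) + 1) ^ 2 ≤ (3 * A * L) ^ 2 := pow_le_pow_left₀ (by positivity) hT2 2
      _ = (18 * (A : ℝ) ^ 2) * (L ^ 2 / 2) := by ring
      _ ≤ L * (L ^ 2 / 2) := mul_le_mul_of_nonneg_right hLA (by positivity)
      _ = L ^ 3 / 2 := by ring
      _ ≤ L ^ 5 / 2 := by
          have : L ^ 3 ≤ L ^ 5 := pow_le_pow_right₀ hLone (by norm_num)
          linarith
      _ ≤ w := by linarith
  have h3 : (T : ℝ) + 1 ≤ Real.sqrt w := Real.le_sqrt_of_sq_le h2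
  have h4 : (T : ℝ) + 1 ≤ (((range (w + 1)).filter Nat.Prime).card : ℝ) := h3.trans (hP w hww)
  have h5 : T + 1 ≤ ((range (w + 1)).filter Nat.Prime).card := by exact_mod_cast h4
  have h6 : ((range (w + 1)).filter Nat.Prime).erase p0 ⊆
      (range (w + 1)).filter (fun p => p.Prime ∧ p ≠ p0) := by
    intro p hp
    rw [Finset.mem_erase, Finset.mem_filter] at hp
    exact Finset.mem_filter.2 ⟨hp.2.1, hp.2.2, hp.1⟩
  have h7 := Finset.card_le_card h6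
  have h8 := Finset.pred_card_le_card_erase (s := (range (w + 1)).filter Nat.Prime) (a := p0)
  omega

end SceAux

open SceAux in
theorem pSce (hAp : ApVStmt) (hPrc : PrcStmt) (hMlV : MlVStmt) (hGro : GroStmt) : SceStmt := by
  intro A E w1 hA hE
  obtain ⟨ε1, hε1, hap⟩ := hAp
  obtain ⟨X1, hX1⟩ := hap w1
  obtain ⟨w0, hw0⟩ := hPrc
  have hA' : (1 : ℝ) ≤ A := by exact_mod_cast hA
  obtain ⟨X2, hX2⟩ := hGro A E w1 1 ε1 1 (-1) hA hE hε1 one_pos (by linarith)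
  obtain ⟨L0, hL0⟩ : ∃ L0 : ℝ, L0 = max 2 (max (18 * (A : ℝ) ^ 2) ((w0 : ℝ) + 1)) := ⟨_, rfl⟩
  refine ⟨max (max X1 X2) (Real.exp (Real.exp L0)), ?_⟩
  intro X hX
  have hXa : X1 ≤ X := ((le_max_left _ _).trans (le_max_left _ _)).trans hX
  have hXb : X2 ≤ X := ((le_max_right _ _).trans (le_max_left _ _)).trans hX
  have hXc : Real.exp (Real.exp L0) ≤ X := (le_max_right _ _).trans hX
  have hXp : (0 : ℝ) < X := lt_of_lt_of_le (Real.exp_pos _) hXc
  have hl1 : Real.exp L0 ≤ Real.log X := (Real.le_log_iff_exp_le hXp).2 hXc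
  have hl0 : 0 < Real.log X := lt_of_lt_of_le (Real.exp_pos _) hl1
  have hl2 : L0 ≤ Real.log (Real.log X) := (Real.le_log_iff_exp_le hl0).2 hl1
  have hLa : 2 ≤ Real.log (Real.log X) := by
    refine le_trans ?_ hl2
    rw [hL0]; exact le_max_left _ _
  have hLb : 18 * (A : ℝ) ^ 2 ≤ Real.log (Real.log X) := by
    refine le_trans ?_ hl2
    rw [hL0]; exact (le_max_left _ _).trans (le_max_right _ _)
  have hLc : (w0 : ℝ) + 1 ≤ Real.log (Real.log X) := by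
    refine le_trans ?_ hl2
    rw [hL0]; exact (le_max_right _ _).trans (le_max_right _ _)
  obtain ⟨p0, hp0, hp1, hq⟩ := hX1 X hXa
  obtain ⟨T, hT⟩ : ∃ T : ℕ, T = ⌈(A : ℝ) * Real.log (Real.log X)⌉₊ := ⟨_, rfl⟩
  obtain ⟨w, hw⟩ : ∃ w : ℕ, w = ⌊(Real.log (Real.log X)) ^ 5⌋₊ := ⟨_, rfl⟩
  have hT0 : 0 < T := by
    rw [hT]
    exact Nat.ceil_pos.2 (by nlinarith)
  have hET : 2 * E * T ^ 2 ≠ 0 := by positivity
  obtain ⟨M, hM, hM1, hM2⟩ := Nat.exists_prime_lt_and_le_two_mul (2 * E * T ^ 2) hET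
  obtain ⟨V, hV⟩ : ∃ V : ℕ, V = ∏ p ∈ (range (w + 1)).filter (fun p => p.Prime ∧ p ≠ p0), p :=
    ⟨_, rfl⟩
  have hcard := prs A w0 hA _ hLa hLb hLc hw0 T w p0 hT hw
  obtain ⟨q, hqd⟩ : ∃ q : Fin T ↪o ℕ,
      ∀ j, q j ∈ (range (w + 1)).filter (fun p => p.Prime ∧ p ≠ p0) :=
    ⟨Finset.orderEmbOfCardLe _ hcard, fun j => Finset.orderEmbOfCardLe_mem _ hcard j⟩
  have hscl : SclV A E w1 X T M w p0 V q := by
    refine ⟨hT, hM, hM1, by linarith, hw, hp0, hp1, hV, fun j => ?_, q.injective⟩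
    have := hqd j
    rw [Finset.mem_filter, Finset.mem_range] at this
    exact ⟨this.2.1, by omega, this.2.2⟩
  refine ⟨T, M, w, p0, V, q, hscl, ?_⟩
  intro x
  have : NeZero M := ⟨hM.ne_zero⟩
  obtain ⟨-, -, -, -, -, v1, v2, -, -, -, -, v3, -⟩ := hX2 X hXb T M w p0 V q hscl
  obtain ⟨-, m2, m3⟩ := hMlV T q (fun j => (hscl.hq j).1) q.injective M
  have hsm := m2 V v2 x
  have hlm := m3 w (fun j => (hscl.hq j).2.1) x
  have hV0 : (0 : ℝ) < V := by exact_mod_cast v1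
  have hm0 : (0 : ℝ) < mltv q x := by exact_mod_cast hsm.1
  have hQ1 : 1 ≤ V * mltv q x := Nat.mul_pos v1 hsm.1
  have hnd : ¬ p0 ∣ V * mltv q x := by
    intro hdv
    rcases (hp0.dvd_mul).1 hdv with h | h
    · rw [hV] at h
      obtain ⟨p, hp, hpp⟩ := hp0.prime.exists_mem_finset_dvd h
      rw [Finset.mem_filter] at hp
      exact hp.2.2 ((Nat.prime_dvd_prime_iff_eq hp0 hp.2.1).1 hpp).symm
    · rw [mltv] at h
      obtain ⟨j, _, hj⟩ := hp0.prime.exists_mem_finset_dvd h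
      have h5 := hp0.dvd_of_dvd_pow hj
      exact (hscl.hq j).2.2 ((Nat.prime_dvd_prime_iff_eq hp0 (hscl.hq j).1).1 h5).symm
  have hlogQ : Real.log ((V * mltv q x : ℕ) : ℝ) ≤ (Real.log X) ^ ε1 := by
    rw [Nat.cast_mul, Real.log_mul hV0.ne' hm0.ne']
    linarith
  have h6 := hq (V * mltv q x) hQ1 hnd hlogQ
  rw [tot V _ v1 hsm] at h6
  have h7 : (((V * mltv q x : ℕ) : ℝ) / ((mltv q x * V.totient : ℕ) : ℝ)) =
      (V : ℝ) / V.totient := by
    push_cast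
    rw [mul_comm (V : ℝ), mul_div_mul_left _ _ hm0.ne']
  rw [h7] at h6
  refine h6.trans (le_of_eq ?_)
  have h8 : (Icc 1 X).filter (fun b => (V * mltv q x * b + 1).Prime) =
      (Icc 1 X).filter (fun b => (V * b * mltv q x + 1).Prime) := by
    apply Finset.filter_congr
    intro b _
    rw [show V * mltv q x * b = V * b * mltv q x by ring]
  rw [h8]

end Pool.Agent.Lib.MP_9f2731_nt.QL.Aw
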