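import Pool.Agent.Lib.MP_9f2731_nt.QL.Aw.Spec

/-!
MP_9f2731_nt, QL/Aw, module ShV: the wide box is almost invariant under small multiples of the
elements of the narrow box.
-/

namespace Pool.Agent.Lib.MP_9f2731_nt.QL.Aw

open Finset
open Pool.Agent.Lib.MP_9f2731_nt.GP
open Pool.Agent.Lib.MP_9f2731_nt.GP.Rel
open Pool.Agent.Lib.MP_9f2731_nt.GP.Asm (eb)
open Pool.Agent.Lib.MP_9f2731_nt.QL

/-- The bad values. -/
private def shV_bad (h : ℕ) (c : ℤ) : Finset ℕ :=
  (range h).filter (fun v => (v : ℤ) + c < 0 ∨ (h : ℤ) ≤ (v : ℤ) + c)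

private theorem shV_bad_card (h : ℕ) (c : ℤ) (D : ℕ) (hc : |c| ≤ (D : ℤ)) :
    (shV_bad h c).card ≤ D := by
  obtain ⟨h1, h2⟩ := abs_le.1 hc
  rcases le_or_gt 0 c with h0 | h0
  · have h3 : shV_bad h c ⊆ Ico (h - D) h := by
      intro v hv
      obtain ⟨h4, h5⟩ := mem_filter.1 hv
      rw [mem_range] at h4
      rw [mem_Ico]
      omega
    have h4 := card_le_card h3
    rw [Nat.card_Ico] at h4
    omega
  · have h3 : shV_bad h c ⊆ range D := by
      intro v hv
      obtain ⟨h4, h5⟩ := mem_filter.1 hv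
      rw [mem_range] at h4 ⊢
      omega
    have h4 := card_le_card h3
    rwa [card_range] at h4

private theorem shV_card1 (M : ℕ) [NeZero M] (S : Finset ℕ) :
    (univ.filter (fun z : ZMod M => z.val ∈ S)).card ≤ S.card := by
  rw [← card_image_of_injective (univ.filter (fun z : ZMod M => z.val ∈ S)) (ZMod.val_injective M)]
  refine card_le_card fun n hn => ?_
  obtain ⟨z, hz, rfl⟩ := mem_image.1 hn
  exact (mem_filter.1 hz).2

private theorem shV_fib (T M h : ℕ) [NeZero M] (j : Fin T) (S : Finset ℕ) :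
    ((Xb T M h).filter (fun x => (x j).val ∈ S)).card ≤ S.card * h ^ (T - 1) := by
  have h1 : (Xb T M h).filter (fun x => (x j).val ∈ S) ⊆ Fintype.piFinset (fun i =>
      if i = j then univ.filter (fun z : ZMod M => z.val ∈ S)
        else univ.filter (fun z : ZMod M => z.val ∈ range h)) := by
    intro x hx
    obtain ⟨h2, h3⟩ := mem_filter.1 hx
    have h4 := (mem_filter.1 h2).2
    rw [Fintype.mem_piFinset]
    intro i
    split_ifs with hi
    · rw [hi, mem_filter]
      exact ⟨mem_univ _, h3⟩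
    · rw [mem_filter, mem_range]
      exact ⟨mem_univ _, h4 i⟩
  refine (card_le_card h1).trans ?_
  rw [Fintype.card_piFinset, ← Finset.mul_prod_erase _ _ (mem_univ j), if_pos rfl]
  have h2 : ∏ i ∈ univ.erase j, (if i = j then univ.filter (fun z : ZMod M => z.val ∈ S)
        else univ.filter (fun z : ZMod M => z.val ∈ range h)).card ≤
      ∏ _i ∈ (univ : Finset (Fin T)).erase j, h := by
    refine Finset.prod_le_prod (fun _ _ => Nat.zero_le _) fun i hi => ?_
    rw [if_neg (ne_of_mem_erase hi)]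
    exact (shV_card1 M (range h)).trans (card_range h).le
  rw [prod_const, card_erase_of_mem (mem_univ j), card_univ, Fintype.card_fin] at h2
  exact Nat.mul_le_mul (shV_card1 M S) h2

/-- Module ShV. -/
theorem pShV (hBox : BoxStmt) : ShVStmt := by
  intro T M h D θ _ hh1 hhM hθ y hy c hc
  have hy' : ∀ j, (y j).val < 2 := (mem_filter.1 hy).2
  have hθ0 : 0 ≤ θ := by
    have h1 : 0 ≤ θ * h := le_trans (by positivity) hθ
    have h2 : (0 : ℝ) < h := by exact_mod_cast hh1
    exact nonneg_of_mul_nonneg_left h1 h2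
  -- the bad points
  have hsub : (Xb T M h).filter (fun x => x + c • y ∉ Xb T M h) ⊆
      univ.biUnion (fun j : Fin T => (Xb T M h).filter (fun x => (x j).val ∈ shV_bad h c)) := by
    intro x hx
    obtain ⟨h1, h2⟩ := mem_filter.1 hx
    have h3 := (mem_filter.1 h1).2
    by_contra h4
    apply h2
    rw [Xb, mem_filter]
    refine ⟨mem_univ _, fun j => ?_⟩
    have h5 : (x j).val ∉ shV_bad h c := by
      intro h6
      apply h4
      rw [mem_biUnion]
      exact ⟨j, mem_univ _, mem_filter.2 ⟨h1, h6⟩⟩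
    have h6 : ¬ (((x j).val : ℤ) + c < 0 ∨ (h : ℤ) ≤ ((x j).val : ℤ) + c) := by
      intro h7
      exact h5 (mem_filter.2 ⟨mem_range.2 (h3 j), h7⟩)
    push Not at h6
    have h7 : (x + c • y) j = x j + c • y j := rfl
    rw [h7]
    have h8 : (y j).val = 0 ∨ (y j).val = 1 := by
      have := hy' j
      omega
    rcases h8 with h8 | h8
    · rw [ZMod.val_eq_zero] at h8
      rw [h8, smul_zero, add_zero]
      exact h3 j
    · have h9 : y j = 1 := by
        have h10 := ZMod.natCast_zmod_val (y j)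
        rw [h8, Nat.cast_one] at h10
        exact h10.symm
      obtain ⟨n, hn⟩ : ∃ n : ℕ, (n : ℤ) = ((x j).val : ℤ) + c :=
        ⟨(((x j).val : ℤ) + c).toNat, Int.toNat_of_nonneg h6.1⟩
      have h10 : x j + c • y j = ((n : ℕ) : ZMod M) := by
        have h11 : ((n : ℤ) : ZMod M) = (((x j).val : ℤ) : ZMod M) + ((c : ℤ) : ZMod M) := by
          rw [hn]
          push_cast
          rfl
        rw [Int.cast_natCast, Int.cast_natCast, ZMod.natCast_zmod_val] at h11
        rw [h9, h11, zsmul_one]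
      rw [h10, ZMod.val_cast_of_lt (by omega)]
      omega
  have h1 : (((Xb T M h).filter (fun x => x + c • y ∉ Xb T M h)).card : ℝ) ≤
      (T : ℝ) * (D * (h : ℝ) ^ (T - 1)) := by
    have h2 : ((Xb T M h).filter (fun x => x + c • y ∉ Xb T M h)).card ≤
        T * (D * h ^ (T - 1)) := by
      refine (card_le_card hsub).trans (card_biUnion_le.trans ?_)
      refine (Finset.sum_le_sum fun j _ => (shV_fib T M h j _).trans
        (Nat.mul_le_mul_right _ (shV_bad_card h c D hc))).trans ?_
      rw [sum_const, card_univ, Fintype.card_fin, smul_eq_mul]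
    exact_mod_cast h2
  refine h1.trans ?_
  rw [(hBox T M h hhM).1]
  rcases Nat.eq_zero_or_pos T with h2 | h2
  · subst h2
    simp only [Nat.cast_zero, zero_mul]
    positivity
  · obtain ⟨t, rfl⟩ : ∃ t, T = t + 1 := ⟨T - 1, by omega⟩
    rw [Nat.add_sub_cancel]
    push_cast at hθ ⊢
    calc ((t : ℝ) + 1) * (D * (h : ℝ) ^ t) = (((t : ℝ) + 1) * D) * (h : ℝ) ^ t := by ring
      _ ≤ (θ * h) * (h : ℝ) ^ t := mul_le_mul_of_nonneg_right hθ (by positivity)
      _ = θ * (h : ℝ) ^ (t + 1) := by ring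

end Pool.Agent.Lib.MP_9f2731_nt.QL.Aw
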