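import Pool.Agent.Lib.MP_9f2731_nt.QL.Aw.Box
import Pool.Agent.Lib.MP_9f2731_nt.QL.Aw.Bsv
import Pool.Agent.Lib.MP_9f2731_nt.QL.Aw.Cng
import Pool.Agent.Lib.MP_9f2731_nt.QL.Aw.Cwg
import Pool.Agent.Lib.MP_9f2731_nt.QL.Aw.Dgv
import Pool.Agent.Lib.MP_9f2731_nt.QL.Aw.DnV
import Pool.Agent.Lib.MP_9f2731_nt.QL.Aw.Fia
import Pool.Agent.Lib.MP_9f2731_nt.QL.Aw.Fib
import Pool.Agent.Lib.MP_9f2731_nt.QL.Aw.Gdb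
import Pool.Agent.Lib.MP_9f2731_nt.QL.Aw.GnV
import Pool.Agent.Lib.MP_9f2731_nt.QL.Aw.Gro
import Pool.Agent.Lib.MP_9f2731_nt.QL.Aw.MjV
import Pool.Agent.Lib.MP_9f2731_nt.QL.Aw.MlV
import Pool.Agent.Lib.MP_9f2731_nt.QL.Aw.MsV
import Pool.Agent.Lib.MP_9f2731_nt.QL.Aw.NwA
import Pool.Agent.Lib.MP_9f2731_nt.QL.Aw.NwB
import Pool.Agent.Lib.MP_9f2731_nt.QL.Aw.NwC
import Pool.Agent.Lib.MP_9f2731_nt.QL.Aw.Prc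
import Pool.Agent.Lib.MP_9f2731_nt.QL.Aw.PtV
import Pool.Agent.Lib.MP_9f2731_nt.QL.Aw.Sce
import Pool.Agent.Lib.MP_9f2731_nt.QL.Aw.SgV
import Pool.Agent.Lib.MP_9f2731_nt.QL.Aw.ShV
import Pool.Agent.Lib.MP_9f2731_nt.GP.Asm.Sel

/-!
MP_9f2731_nt, QL/Aw (helper78): assembly.
-/

namespace Pool.Agent.Lib.MP_9f2731_nt.QL.Aw

open Pool.Agent.Lib.MP_9f2731_nt.GP
open Pool.Agent.Lib.MP_9f2731_nt.QL

theorem awAll (hRel : RelWStmt) (hCor : CorVStmt) (hMom : MomVStmt) (hAp : ApVStmt) : MainStmt := by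
  have aSgV := pSgV pMlV pGro
  have aMsV := pMsV (pGnV hCor hMom pMlV pGro aSgV) pGro
  have aGdb := pGdb (pNwA pCng pBox) (pNwB pCwg pBox) GP.Asm.pSel
  exact pBsv hRel aMsV pGro pMlV pBox (pShV pBox) pNwC aGdb GP.Asm.pSel (pSce hAp pPrc pMlV pGro)
    (pDnV pGro) pMjV pDgv pPtV

end Pool.Agent.Lib.MP_9f2731_nt.QL.Aw
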