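import Pool.Agent.Lib.MP_9f2731_nt.QL.Defs
import Pool.Agent.Lib.MP_9f2731_nt.GP.Asm.Spec

/-!
MP_9f2731_nt, THEOREM QL (helper78), chapter Aw: assembly, RelWStmt → CorVStmt → MomVStmt → ApVStmt → MainStmt. Rules: a
module `X.lean` in this directory starts with `import Pool.Agent.Lib.MP_9f2731_nt.QL.Aw.Spec`, `namespace
Pool.Agent.Lib.MP_9f2731_nt.QL.Aw`, `open Finset`, `open Pool.Agent.Lib.MP_9f2731_nt.GP
Pool.Agent.Lib.MP_9f2731_nt.GP.Rel Pool.Agent.Lib.MP_9f2731_nt.QL` and proves the theorem `pX`. Statements under Uses are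
hypotheses, in this order. All modules are independent. Many modules are similar to the proved files of GP/Asm (copy and
adapt: Mlt, Gen, Lf2, Sec, Den, Maj, Pts, Bas). eb is GP.Asm.eb (mean over b in [1, X]).
Notation of the proofs: L = log log X, G = Fin T → ZMod M.
-/

namespace Pool.Agent.Lib.MP_9f2731_nt.QL.Aw

open Finset
open Pool.Agent.Lib.MP_9f2731_nt.GP
open Pool.Agent.Lib.MP_9f2731_nt.GP.Rel
open Pool.Agent.Lib.MP_9f2731_nt.GP.Asm (eb)
open Pool.Agent.Lib.MP_9f2731_nt.QL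

/-- multiplier of a point of the exponent lattice -/
def mltv {T M : ℕ} (q : Fin T → ℕ) (x : Fin T → ZMod M) : ℕ := ∏ j : Fin T, q j ^ (x j).val

/-- the box of side h -/
def Xb (T M h : ℕ) [NeZero M] : Finset (Fin T → ZMod M) := univ.filter (fun x => ∀ j, (x j).val < h)

/-- the majorant on the lattice belonging to b -/
noncomputable def nuv (V : ℕ) (κ : ℝ) {T M : ℕ} (q : Fin T → ℕ) (X b : ℕ) (x : Fin T → ZMod M) : ℝ :=
  nuV V ((X : ℝ) ^ κ) (V * b * mltv q x + 1)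

open Classical in
/-- the normalized indicator of the primes with the property P on the part of the lattice with distance K from the
boundary -/
noncomputable def fbv (P : ℕ → Prop) (V : ℕ) (κ : ℝ) {T M : ℕ} (q : Fin T → ℕ) (K X b : ℕ)
    (x : Fin T → ZMod M) : ℝ :=
  if (∀ j, (x j).val + K < M) ∧ (X : ℝ) ^ κ < (b : ℝ) ∧ (V * b * mltv q x + 1).Prime ∧
    P (V * b * mltv q x) then
    (V.totient / V : ℝ) * Real.log ((X : ℝ) ^ κ) * (3 / 4)
  else 0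

/-- the scale data -/
structure SclV (A E w1 X T M w p0 V : ℕ) (q : Fin T → ℕ) : Prop where
  hT : T = ⌈(A : ℝ) * Real.log (Real.log X)⌉₊
  hM : M.Prime
  hM1 : 2 * E * T ^ 2 < M
  hM2 : M ≤ 4 * E * T ^ 2
  hw : w = ⌊(Real.log (Real.log X)) ^ 5⌋₊
  hp : p0.Prime
  hp1 : w1 < p0
  hV : V = ∏ p ∈ (range (w + 1)).filter (fun p => p.Prime ∧ p ≠ p0), p
  hq : ∀ j, (q j).Prime ∧ q j ≤ w ∧ q j ≠ p0
  hqi : Function.Injective q

/-! ### Sizes -/

/-- Module MlV (compare GP/Asm/Mlt.lean). Uses: nothing. Proof. The exponent of q j in mltv q x is (x j).val (unique factorization, distinct primes), so x is determined (ZMod.val_injective). Prime factors of mltv q x are among the q j. (x j).val ≤ M: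
log (mltv q x) ≤ ∑_j M log Q. -/
def MlVStmt : Prop :=
  ∀ (T : ℕ) (q : Fin T → ℕ), (∀ j, (q j).Prime) → Function.Injective q → ∀ (M : ℕ) [NeZero M],
    Function.Injective (fun x : Fin T → ZMod M => mltv q x) ∧
    (∀ V : ℕ, (∀ j, q j ∣ V) → ∀ x : Fin T → ZMod M, SmV V (mltv q x)) ∧
    ∀ Q : ℕ, (∀ j, q j ≤ Q) → ∀ x : Fin T → ZMod M, Real.log (mltv q x) ≤ T * (M : ℝ) * Real.log Q

/-- Module Prc (number of primes). Uses: nothing. Proof. 4^n < n centralBinom n (Nat.four_pow_lt_mul_centralBinom), centralBinom n = ∏_{p ≤ 2n} p^(exponent) with every factor ≤ 2n (Nat.pow_factorization_choose_le), so 4^n ≤ n (2n)^(π(2n)), π(2n) ≥ (n log 4 - log n)/log(2n)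
≥ sqrt(2n+1) for n large. (Or from Pool.Agent.Lib.BV.aPnt, or a Chebyshev estimate of Mathlib.) -/
def PrcStmt : Prop :=
  ∃ w0 : ℕ, ∀ w : ℕ, w0 ≤ w → Real.sqrt w ≤ (((range (w + 1)).filter Nat.Prime).card : ℝ)

/-- Module Gro (growth). Uses: nothing. Proof. L → ∞ as X → ∞. L ≥ 1 large. A L ≤ T ≤ A L + 1 ≤ 2 A L, M ≤ 4 E T^2 ≤ 16 E A^2 L^2, L^5/2 ≤ w ≤ L^5, log w ≤ 5 log L. V is a divisor of the primorial of w (≤ 4^w): log V ≤ 2 w ≤ 2 L^5, V ≥ 1. T M ≤ 32 E A^3 L^3. So: (1 + 2 L^5)^6 ≤ η e^L;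
T M ≤ η L^5/2; log V + T M log w ≤ 2 L^5 + 160 E A^3 L^3 log L ≤ min (L^6) (e^(ε L)); E T^2 log w ≤ 20 E A^2 L^2 log L ≤ L^3; if A ≥ 2 (B + 1), then (log X)^B (1/2)^T ≤ e^(B L) e^(-A L/2) ≤ e^(-L) ≤ η (log 2 ≥ 1/2).
The primes q j divide V, and the primes p ≤ w1 divide V for w1 ≤ w (p < p0). -/
def GroStmt : Prop :=
  ∀ (A E w1 K0 : ℕ) (ε η B : ℝ), 1 ≤ A → 1 ≤ E → 0 < ε → 0 < η → 2 * (B + 1) ≤ A → ∃ X0 : ℝ, ∀ X : ℕ,
    X0 ≤ X → ∀ (T M w p0 V : ℕ) (q : Fin T → ℕ), SclV A E w1 X T M w p0 V q →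
    K0 ≤ X ∧ (K0 : ℝ) ≤ Real.log (Real.log X) ∧ K0 ≤ T ∧ w1 ≤ w ∧ K0 ≤ w ∧ 1 ≤ V ∧ (∀ j, q j ∣ V) ∧
    (∀ p : ℕ, p.Prime → p ≤ w1 → p ∣ V) ∧ (∀ p : ℕ, p.Prime → p ≤ w → p ≠ p0 → p ∣ V) ∧
    (1 + Real.log V) ^ 6 ≤ η * Real.log X ∧
    (T : ℝ) * M ≤ η * w ∧
    Real.log V + T * M * Real.log w ≤ (Real.log X) ^ ε ∧
    Real.log V + T * M * Real.log w ≤ (Real.log (Real.log X)) ^ 6 ∧
    (E : ℝ) * T ^ 2 * Real.log w ≤ (Real.log (Real.log X)) ^ 3 ∧
    (Real.log X) ^ B * (1 / 2 : ℝ) ^ T ≤ η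

/-- Module SgV (the singular factor is small for all configurations). Uses: MlV, Gro. Proof. w1 ≥ 4 C/η + 1. Gro with K0 = 2 and η replaced by η' = η/(4 C (J^2+1)) (B = -1, ε = 1). η ≤ 1 WLOG. S' = image, card ≤ J. Δ = Del S' is a product of at most J^2 positive differences, each ≤ max m, so log Δ ≤ J^2 T M log w
(MlV; w ≥ 2). A prime p ∣ Δ, not dividing V, is p0 or > w. The number of the p ∣ Δ with p > w is at most log Δ/log w ≤ J^2 T M. So the sum of C/p over the p ∣ Δ not dividing V is ≤ C/w1 + C J^2 T M/w ≤ η/4 + η/4, and ∏ (1 + C/p) ≤ exp(∑ C/p) ≤ exp(η/2) ≤ 1 + η. -/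
def SgVStmt : Prop :=
  ∀ (J : ℕ) (C η : ℝ), 0 < C → 0 < η → ∃ w1 : ℕ, ∀ A E : ℕ, 1 ≤ A → 1 ≤ E → ∀ w2 : ℕ, w1 ≤ w2 →
    ∃ X0 : ℝ, ∀ X : ℕ, X0 ≤ X → ∀ (T M w p0 V : ℕ) [NeZero M] (q : Fin T → ℕ), SclV A E w2 X T M w p0 V q →
    ∀ S : Finset (Fin T → ZMod M), S.card ≤ J → singV C V (Del (S.image (mltv q))) - 1 ≤ η

/-! ### Mean values over b -/

/-- Module GnV (compare GP/Asm/Gen.lean). Uses: CorVStmt, MomVStmt, MlV, Gro, SgV. Proof. κ, C1 from CorV for J (2 J κ ≤ 1, so κ ≤ 1/2), C3 from MomV for J, C2 = C3 + 1. Given θ: w1 = the maximum of 1, ⌈4 C1/θ⌉ and the w1 of SgV for (J, C1, θ/(4 C1)) (SgV with w2 = w1).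
eb and av commute, so it is enough to prove for every y: |eb ∏_{i ∈ I} nuv (ψ i y) - 1| ≤ θ + L'^C2 ∑ ∑ [ψ i y = ψ i' y], L' = log X. (a) If ψ · y is injective on I, so is i ↦ mltv q (ψ i y) (MlV), S = the image of I, the product is ∏_{m ∈ S} nuV(V b m + 1), SmV V m by MlV and Gro. CorV with w = w1
(all primes ≤ w1 divide V): ≤ C1 ((1 + log V)^6/log X + 1/w1 + singV - 1) ≤ θ/4 + θ/4 + θ/4 (Gro with η = min 1 (θ/(4 C1))). (b) Otherwise the double sum is ≥ 1. AM-GM: ∏_{i∈I} nu_i ≤ (1/n) ∑ nu_i^n, n = card I, 1 ≤ n ≤ J, nu^n ≤ 1 + nu^J, so eb ∏ ≤ 1 + C3 L'^C3 by MomV, and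
|eb ∏ - 1| ≤ 2 + C3 L'^C3 ≤ L'^C2 for X large. -/
def GnVStmt : Prop :=
  ∀ J : ℕ, 1 ≤ J → ∃ κ C2 : ℝ, 0 < κ ∧ κ < 1 ∧ 0 < C2 ∧ ∀ θ : ℝ, 0 < θ → ∃ w1 : ℕ, ∀ A E : ℕ, 1 ≤ A → 1 ≤ E →
    ∃ X0 : ℝ, ∀ X : ℕ, X0 ≤ X → ∀ (T M w p0 V : ℕ) [NeZero M] (q : Fin T → ℕ), SclV A E w1 X T M w p0 V q →
    ∀ (Y : Type) [Fintype Y] [Nonempty Y] (ι : Type) [DecidableEq ι] (I : Finset ι)
      (ψ : ι → Y → (Fin T → ZMod M)), I.card ≤ J →
    |eb X (fun b => av (fun y => ∏ i ∈ I, nuv V κ q X b (ψ i y))) - 1| ≤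
      θ + (Real.log X) ^ C2 *
        ∑ i ∈ I, ∑ i' ∈ I.erase i, av (fun y => if ψ i y = ψ i' y then (1 : ℝ) else 0)

/-- mean values over families with few coincidences are near 1 in mean square -/
def MeanOK (J : ℕ) (κ θ : ℝ) (X M V : ℕ) {T : ℕ} (q : Fin T → ℕ) : Prop :=
  ∀ (W Z ι : Type) [Fintype W] [Nonempty W] [Fintype Z] [Nonempty Z] [DecidableEq ι] (I : Finset ι)
    (ψ : ι → W → Z → (Fin T → ZMod M)), 2 * I.card ≤ J →
    (∀ i ∈ I, ∀ i' ∈ I, i ≠ i' →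
      av (fun y : W × Z => if ψ i y.1 y.2 = ψ i' y.1 y.2 then (1 : ℝ) else 0) ≤ (1 / 2 : ℝ) ^ T) →
    (∀ i ∈ I, ∀ i' ∈ I,
      av (fun y : W × Z × Z => if ψ i y.1 y.2.1 = ψ i' y.1 y.2.2 then (1 : ℝ) else 0) ≤ (1 / 2 : ℝ) ^ T) →
    eb X (fun b => av (fun e : W => (av (fun z : Z => ∏ i ∈ I, nuv V κ q X b (ψ i e z)) - 1) ^ 2)) ≤ θ

/-- Module MsV (compare GP/Asm/Lf2.lean). Uses: GnV, Gro. Proof. κ, C2 from GnV, A0 = ⌈2 (C2 + 1)⌉₊ + 1. GnV with θ/8. (1) Y = W × Z, I, ψ i (e,z): |M1 - 1| ≤ θ/8 + L'^C2 J^2 (1/2)^T ≤ θ/4 (Gro with B = C2, η = θ/(8 J^2)). (2) Y = W × Z × Z, index type Bool × ι, I' = univ ×ˢ I (card ≤ J),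
ψ (false,i) y = ψ i y.1 y.2.1, ψ (true,i) y = ψ i y.1 y.2.2: collisions in the same copy have the mean of the first hypothesis (the mean over the other copy is trivial), collisions of different copies that of the second (for (true,i),(false,i') exchange the copies or use the symmetry): |M2 - 1| ≤ θ/4.
eb av_e (F_b(e) - 1)^2 = M2 - 2 M1 + 1 ≤ 3θ/4, because F_b(e)^2 = av over Z × Z of the double product. -/
def MsVStmt : Prop :=
  ∀ J : ℕ, 1 ≤ J → ∃ (κ : ℝ) (A0 : ℕ), 0 < κ ∧ κ < 1 ∧ ∀ θ : ℝ, 0 < θ → ∃ w1 : ℕ, ∀ A E : ℕ, 1 ≤ A → A0 ≤ A →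
    1 ≤ E → ∃ X0 : ℝ, ∀ X : ℕ, X0 ≤ X → ∀ (T M w p0 V : ℕ) [NeZero M] (q : Fin T → ℕ),
    SclV A E w1 X T M w p0 V q → MeanOK J κ θ X M V q

/-! ### Coincidences -/

/-- Module Cwg (wide forms). Uses: nothing. Proof. For a fixed value of all other entries and a ∈ ℤ with 1 ≤ |a| < k, a • u = g has at most one solution u in G, so at most one in X. (Mean over one entry u ∈ X of the function x: av g = av av g (update ..), see GP.Rel.UpdStmt; it is used for the variable (i,σ) and its entry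
t = 0 < k m + 1; mu k m i ≥ 1, so the entry 0 occurs in inc (mu k m i) with coefficient 1.) p = (j,σ), p' = (j',σ'). First: if j = j', there is a vertex i with σ i ≠ σ' i, and i ≠ j (both are false at j); the variable (i,σ i) occurs on the left with coefficient i - j ≠ 0, not on the right. If j ≠ j': the variable (j,σ' j) occurs on
the right with coefficient j - j' ≠ 0; on the left the vertex j has coefficient 0. Second: choose i ≠ j; the variable (i,σ i) of the first copy occurs on the left with coefficient i - j, not on the right. -/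
def CwgStmt : Prop :=
  ∀ (k : ℕ) (G : Type) [AddCommGroup G] [Fintype G] [DecidableEq G] (X : Finset G) (m K : ℕ), 2 ≤ k →
    X.Nonempty → 1 ≤ K → (∀ n : ℕ, 1 ≤ n → n < k → Function.Injective (fun x : G => n • x)) →
    ∀ p p' : Fin k × (Fin k → Bool), p.2 p.1 = false → p'.2 p'.1 = false →
    (p ≠ p' → av (fun x : Fin k × Bool → Fin K → X =>
      if frw m p.1 (pk p.2 x) = frw m p'.1 (pk p'.2 x) then (1 : ℝ) else 0) ≤ 1 / X.card) ∧
    av (fun y : (Fin k × Bool → Fin K → X) × (Fin k × Bool → Fin K → X) =>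
      if frw m p.1 (pk p.2 y.1) = frw m p'.1 (pk p'.2 y.2) then (1 : ℝ) else 0) ≤ 1 / X.card

/-- Module Cng (narrow forms). Uses: nothing. Proof. First: a with ω a ≠ ω' a; the variable (a, ω a) occurs on the left only, with coefficient D: at most one value in Y. Second: for fixed other variables the equation determines z.1.1 ∈ G. -/
def CngStmt : Prop :=
  ∀ (k D : ℕ) (G : Type) [AddCommGroup G] [Fintype G] [DecidableEq G] (Y : Finset G), Y.Nonempty →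
    Function.Injective (fun x : G => D • x) → ∀ ω ω' : Fin k → Bool,
    (ω ≠ ω' → av (fun z : G × (Fin k × Bool → Y) =>
      if z.1 + D • ∑ a, ((z.2 (a, ω a) : Y) : G) = z.1 + D • ∑ a, ((z.2 (a, ω' a) : Y) : G)
        then (1 : ℝ) else 0) ≤ 1 / Y.card) ∧
    av (fun z : (G × (Fin k × Bool → Y)) × (G × (Fin k × Bool → Y)) =>
      if z.1.1 + D • ∑ a, ((z.1.2 (a, ω a) : Y) : G) = z.2.1 + D • ∑ a, ((z.2.2 (a, ω' a) : Y) : G)
        then (1 : ℝ) else 0) ≤ 1 / Fintype.card G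

/-- Module Box (the boxes). Uses: nothing. Proof. card (Xb T M h) = h^T for h ≤ M (x ↦ the tuple of the val's is a bijection onto Fin T → Fin h; the number of z in ZMod M with z.val < h is h; Fintype.card_piFinset_const or Finset.card_pi). M prime: n • x = 0 with 1 ≤ n < M only for x = 0 (coordinatewise, ZMod M is a
field and (n : ZMod M) ≠ 0). -/
def BoxStmt : Prop :=
  ∀ (T M h : ℕ) [NeZero M], h ≤ M → (Xb T M h).card = h ^ T ∧
    (M.Prime → ∀ n : ℕ, 1 ≤ n → n < M → Function.Injective (fun x : Fin T → ZMod M => n • x))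

/-- Module ShV. Uses: Box. Proof. y ∈ Xb T M 2: every coordinate of y is 0 or 1 (val ∈ {0,1}). Let x ∈ Xb T M h and x + c • y ∉ Xb T M h: for some j the coordinate j of y is 1 and (x j + c).val ≥ h. If 0 ≤ (x j).val + c < h, then (x j + c).val = (x j).val + c < h (as h ≤ M). So (x j).val + c < 0 or ≥ h: (x j).val is in a set
of at most |c| ≤ D of the h values. The number of these x is ≤ T D h^(T-1) ≤ θ h^T. (The number of x ∈ Xb T M h with x j in a prescribed set of d elements is d h^(T-1); T ≥ 1.) -/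
def ShVStmt : Prop :=
  ∀ (T M h D : ℕ) (θ : ℝ) [NeZero M], 1 ≤ h → h ≤ M → (T : ℝ) * D ≤ θ * h → Shf D θ (Xb T M h) (Xb T M 2)

/-! ### Linear forms conditions for most b -/

/-- Module NwA (narrow). Uses: Cng, Box. Proof. MeanOK with W = Unit, Z = G × (Fin k × Bool → Xb T M 2), ι = Fin k → Bool, I = A (card ≤ 2^k, 2 2^k ≤ J), ψ ω _ z = z.1 + k! • ∑ z.2 (a, ω a). The two hypotheses: Cng and Box (card Xb T M 2 = 2^T as 2 ≤ M; card G = M^T ≥ 2^T; k! • is injective as k! < M prime). Means over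
Unit × Z and Unit × Z × Z are means over Z and Z × Z; av over Unit is the value. -/
def NwAStmt : Prop :=
  ∀ (k J : ℕ) (κ θ : ℝ) (X T M V : ℕ) [NeZero M] (q : Fin T → ℕ), 2 * 2 ^ k ≤ J → M.Prime →
    k.factorial < M → MeanOK J κ θ X M V q → ∀ A : Finset (Fin k → Bool),
    eb X (fun b => (av (fun z : (Fin T → ZMod M) × (Fin k × Bool → Xb T M 2) =>
      ∏ ω ∈ A, nuv V κ q X b (z.1 + k.factorial • ∑ a, ((z.2 (a, ω a) : Xb T M 2) : Fin T → ZMod M))) -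
        1) ^ 2) ≤ θ

/-- Module NwB (wide). Uses: Cwg, Box. Proof. MeanOK with W = G, Z = Fin k × Bool → Fin K → Xb T M h, ι = Fin k × (Fin k → Bool), I = S (card ≤ k 2^k), ψ p e x = e + frw m p.1 (pk p.2 x). The base point e cancels in the equations, so the two hypotheses follow from Cwg (mean over e trivial) and Box: card Xb T M h = h^T ≥ 2^T;
n • injective for n < k ≤ k! < M. -/
def NwBStmt : Prop :=
  ∀ (k K J m : ℕ) (κ θ : ℝ) (X T M V h : ℕ) [NeZero M] (q : Fin T → ℕ), 2 ≤ k → 1 ≤ K → 2 * (k * 2 ^ k) ≤ J →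
    M.Prime → k.factorial < M → 2 ≤ h → h ≤ M → MeanOK J κ θ X M V q →
    ∀ S : Finset (Fin k × (Fin k → Bool)), (∀ p ∈ S, p.2 p.1 = false) →
    eb X (fun b => av (fun e : Fin T → ZMod M => (av (fun x : Fin k × Bool → Fin K → Xb T M h =>
      ∏ p ∈ S, nuv V κ q X b (e + frw m p.1 (pk p.2 x))) - 1) ^ 2)) ≤ θ

/-- Module NwC (second moment). Uses: nothing. Proof. MeanOK with W = Unit, Z = G, ι = Unit, I = univ, ψ _ _ x = x: the first hypothesis is empty, the second has mean 1/card G = M^(-T) ≤ (1/2)^T (M ≥ 2). So eb (a - 1)^2 ≤ θ for a = av ν_b, and a^2 ≤ 3/2 + 3 (a-1)^2, so eb a^2 ≤ 3/2 + 3θ ≤ 2 (X ≥ 1). -/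
def NwCStmt : Prop :=
  ∀ (J : ℕ) (κ θ : ℝ) (X T M V : ℕ) [NeZero M] (q : Fin T → ℕ), 2 ≤ J → 2 ≤ M → 1 ≤ X → θ ≤ 1 / 6 →
    MeanOK J κ θ X M V q →
    eb X (fun b => (av (fun x : Fin T → ZMod M => nuv V κ q X b x)) ^ 2) ≤ 2

open Classical in
/-- Module Gdb (linear forms conditions for most b). Uses: NwA, NwB, GP.Asm.SelStmt. Proof. If NLF fails at b, there is an A with |mean - 1| > η, square > η^2; Markov (Sel, second part, t = η^2) for each of the 2^(2^k) sets A: at most X θ/η^2 of the b. If WLF fails there are m < n0 and S with av_e |F(e) - 1| > η, so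
av_e (F(e) - 1)^2 ≥ (av_e |F(e) - 1|)^2 > η^2 (Cauchy-Schwarz); Markov for the n0 2^(k 2^k) pairs (m,S) (card (Fin k × (Fin k → Bool)) = k 2^k). -/
def GdbStmt : Prop :=
  ∀ (k n0 J : ℕ) (κ θ η : ℝ) (X T M V h : ℕ) [NeZero M] (q : Fin T → ℕ), 2 ≤ k → 2 * (k * 2 ^ k) ≤ J →
    M.Prime → k.factorial < M → 2 ≤ h → h ≤ M → 1 ≤ X → 0 < η → 0 ≤ θ → MeanOK J κ θ X M V q →
    (((Icc 1 X).filter (fun b => ¬ (NLF k k.factorial η (Xb T M 2) (fun x => nuv V κ q X b x) ∧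
      WLF k n0 η (Xb T M h) (fun x => nuv V κ q X b x)))).card : ℝ) ≤
      (2 ^ (2 ^ k) + n0 * 2 ^ (k * 2 ^ k)) * (θ / η ^ 2) * X

/-! ### Primes -/

/-- Module Sce (existence of the scale data). Uses: ApVStmt, Prc, MlV, Gro. Proof. X large. ε1 and p0 (for w1) from ApV. T, w as in SclV, M by Bertrand (Nat.exists_prime_lt_and_le_two_mul for 2 E T^2 ≥ 1), V as in SclV. The number of primes ≤ w different from p0 is ≥ sqrt w - 1 ≥ T (Prc; w ≥ L^5/2, T ≤ A L + 1), so there is an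
injective q : Fin T → those primes. SclV holds. For x: Q = V mltv q x is not divisible by p0 (V and mltv are products of primes different from p0), log Q ≤ log V + T M log w ≤ (log X)^ε1 (Gro), so ApV gives (1/4) (Q/φ(Q)) X/log X, and Q/φ(Q) = V/φ(V) because Q and V have the same prime factors
(Nat.totient_eq_mul_prod_factors; compare GP/Ap/ApZ.lean). V * b * m = (V m) b. -/
def SceStmt : Prop :=
  ∀ A E w1 : ℕ, 1 ≤ A → 1 ≤ E → ∃ X0 : ℝ, ∀ X : ℕ, X0 ≤ X → ∃ (T M w p0 V : ℕ) (q : Fin T → ℕ),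
    SclV A E w1 X T M w p0 V q ∧ ∀ x : Fin T → ZMod M,
      (1 / 4 : ℝ) * (((V : ℝ) / V.totient) * X / Real.log X) ≤
        (((Icc 1 X).filter (fun b => (V * b * mltv q x + 1).Prime)).card : ℝ)

open Classical in
/-- Module DnV (density; compare GP/Asm/Den.lean, GP/Alm/Dna.lean). Uses: Gro. Proof. δ' = 3 κ δ/128. v0 = (φ(V)/V) κ log X (3/4). Let x have (x j).val + E T < M for all j: eb (fun b => fbv b x) ≥ v0 (δ (1/4)(V/φ(V)) X/log X - X^κ)/X ≥ (3/16) κ δ - κ log X X^(κ-1) ≥ (3/32) κ δ for X large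
(at most X^κ of the b are ≤ X^κ; φ(V)/V ≤ 1). The proportion of these x in G is ((M - E T)/M)^T ≥ 1 - T E T/M ≥ 1/2 (Bernoulli, one_add_mul_le_pow; M > 2 E T^2; the number of z in ZMod M with z.val + E T < M is M - E T). Exchange eb and av. -/
def DnVStmt : Prop :=
  ∀ κ δ : ℝ, 0 < κ → κ < 1 → 0 < δ → ∃ δ' : ℝ, 0 < δ' ∧ ∀ A E w1 : ℕ, 1 ≤ A → 1 ≤ E → ∃ X0 : ℝ, ∀ X : ℕ,
    X0 ≤ X → ∀ (T M w p0 V : ℕ) [NeZero M] (q : Fin T → ℕ), SclV A E w1 X T M w p0 V q →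
    (∀ x : Fin T → ZMod M, (1 / 4 : ℝ) * (((V : ℝ) / V.totient) * X / Real.log X) ≤
      (((Icc 1 X).filter (fun b => (V * b * mltv q x + 1).Prime)).card : ℝ)) →
    ∀ P : ℕ → Prop,
    (∀ x : Fin T → ZMod M, δ * (((Icc 1 X).filter (fun b => (V * b * mltv q x + 1).Prime)).card : ℝ) ≤
      (((Icc 1 X).filter (fun b => (V * b * mltv q x + 1).Prime ∧ P (V * b * mltv q x))).card : ℝ)) →
    2 * δ' ≤ eb X (fun b => av (fun x : Fin T → ZMod M => fbv P V κ q (E * T) X b x))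

/-- Module MjV (compare GP/Asm/Maj.lean). Uses: nothing. Proof. nuV ≥ 0 because log (X^κ) ≥ 0. If fbv ≠ 0, then n = V b mltv + 1 is a prime > b > R = X^κ ≥ 1 (V ≥ 1, mltv ≥ 1), only the divisor 1 is ≤ R, Lam 2 R n = 1, nuv = the value of fbv. The value is ≤ κ log X ≤ log X (φ(V)/V ≤ 1, κ < 1). -/
def MjVStmt : Prop :=
  ∀ (P : ℕ → Prop) (V : ℕ) (κ : ℝ) (T M : ℕ) (q : Fin T → ℕ) (K X b : ℕ) (x : Fin T → ZMod M), 1 ≤ V →
    0 < κ → κ < 1 → 1 ≤ X → (∀ j, (q j).Prime) →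
    0 ≤ fbv P V κ q K X b x ∧ fbv P V κ q K X b x ≤ nuv V κ q X b x ∧
      fbv P V κ q K X b x ≤ Real.log X

/-! ### Extraction -/

/-- Module Dgv (nonzero difference). Uses: nothing. Proof. Otherwise the product vanishes for all (e,x) with d(x) = ∑ inc ≠ 0, so the mean is ≤ F^k times the proportion of the x with d(x) = 0. With all entries fixed except the entry 0 of the vertex 0 (it occurs in d with coefficient 1; mu ≥ 1, K ≥ 1, k ≥ 1) there is at most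
one value in X with d(x) = 0: the proportion is ≤ 1/card X. Contradiction. -/
def DgvStmt : Prop :=
  ∀ (k m K : ℕ) (G : Type) [AddCommGroup G] [Fintype G] (X : Finset G) (f : G → ℝ) (F c : ℝ), 1 ≤ k →
    1 ≤ K → X.Nonempty → (∀ x, 0 ≤ f x ∧ f x ≤ F) → F ^ k / X.card < c →
    c ≤ av (fun e : G => av (fun x : Fin k → Fin K → X => ∏ j : Fin k, f (e + frw m j x))) →
    ∃ (e : G) (x : Fin k → Fin K → X), (∑ i, inc (mu k m i) (x i)) ≠ 0 ∧
      ∀ j : Fin k, f (e + frw m j x) ≠ 0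

/-- Module PtV (from the lattice to numbers). Uses: nothing. Proof. d = ∑ inc (mu k m i) (x i), D t = the sum of the val's of the coordinate t over the at most (k m + 1) + (k - 1) = k (m+1) entries that occur: D t ≤ k (m + 1) (h - 1) < K' < M, so (d t).val = D t. P_j = e + frw m j x = P_(j+1) + d (frw m j x - frw m (j+1) x =
∑ inc). (P_(j+1) t).val + D t < M (the hypothesis for j + 1), so (P_j t).val = (P_(j+1) t).val + D t. By induction (P_(k-1-i) t).val = (P_(k-1) t).val + i D t. s = mltv q P_(k-1), r = ∏ q_t^(D t): mltv q P_(k-1-i) = s r^i. d ≠ 0, so some D t ≥ 1 and r ≥ 2. log r ≤ ∑_t D t log Q ≤ T K' log Q. -/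
def PtVStmt : Prop :=
  ∀ (T M h k m K K' : ℕ) [NeZero M] (q : Fin T → ℕ), (∀ j, (q j).Prime) → 1 ≤ k → k * m + 1 ≤ K →
    1 ≤ h → k * (m + 1) * h ≤ K' → K' < M →
    ∀ (e : Fin T → ZMod M) (x : Fin k → Fin K → Xb T M h), (∑ i, inc (mu k m i) (x i)) ≠ 0 →
    (∀ (j : Fin k) (t : Fin T), ((e + frw m j x) t).val + K' < M) →
    ∃ (j0 : Fin k) (r : ℕ), 2 ≤ r ∧
      (∀ Q : ℕ, (∀ j, q j ≤ Q) → Real.log r ≤ T * (K' : ℝ) * Real.log Q) ∧
      ∀ i : ℕ, i < k → ∃ j : Fin k, mltv q (e + frw m j x) = mltv q (e + frw m j0 x) * r ^ i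

open Classical in
/-- Module Bsv (main step; compare GP/Asm/Bas.lean, GP/Alm/Bsa.lean). Uses: RelWStmt, MsV, Gro, MlV, Box, ShV, NwC, Gdb, GP.Asm.SelStmt, Sce, DnV, MjV, Dgv, PtV. Proof. Given k, δ. J = 2 (k 2^k); (κ, A0) from MsV; δ' from DnV for (κ,δ); (c, η, θr, n0) from RelW for (k,δ'); B = ⌈k!/θr⌉₊ + 2, E = k (n0+1) B;
A = max A0 (2 (k+1)) + 1; nS = 2^(2^k) + n0 2^(k 2^k); θ = min (1/6) (η^2 δ'^2/(4 nS)); w1 from MsV for θ. X large; data from Sce for (A, E, w1); M prime gives NeZero M. h = B T, K' = E T = k (n0+1) h (Gro: T ≥ K0 := k! + 2): h ≥ 2, h ≤ K' ≤ E T^2 < M, k! < T ≤ M. MeanOK by MsV.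
Bm = univ.image (mltv q). m ∈ Bm: 1 ≤ m; log (V m) ≤ log V + T M log w ≤ L^6 (MlV, Gro); (1/4) X/log X ≤ (1/4)(V/φ(V)) X/log X ≤ the number of primes. Given P: DnV: 2 δ' ≤ eb (av fbv). Sel, first part (F = av fbv, V = av nuv by MjV, NwC): at least (δ'^2/2) X of the b have av fbv ≥ δ'.
Gdb: at most nS θ X/η^2 ≤ (δ'^2/4) X of the b violate NLF or WLF. So at least (δ'^2/4) X of the b are good. For a good b: RelW for G = Fin T → ZMod M, X = Xb T M h, Y = Xb T M 2 (nonempty by Box), Shf by ShV (T k! ≤ θr B T), ν = nuv, f = fbv (MjV): m < n0 with c ≤ av_e av_x ∏ f.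
Dgv with F = log X: (log X)^k/h^T ≤ (log X)^k (1/2)^T ≤ c/2 < c (Gro with B = k, η = c/2). So e, x with d(x) ≠ 0, fbv ≠ 0 at all e + frw m j x: the coordinates satisfy val + K' < M, V b mltv + 1 is prime, P holds. PtV: j0, r; s = mltv q (e + frw m j0 x) ∈ Bm; r ≥ 2, log r ≤ T K' log w = E T^2 log w ≤ L^3 (Gro). -/
def BsvStmt : Prop := MainStmt

/-! ### The theorems -/

/-- the prime n + 1 starts a chain of length k with a ratio r ≤ exp((log log X)^3) -/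
def StQ (k X n : ℕ) : Prop :=
  ∃ r : ℕ, 2 ≤ r ∧ (r : ℝ) ≤ Real.exp ((Real.log (Real.log X)) ^ 3) ∧
    ∀ i : ℕ, i < k → (n * r ^ i + 1).Prime

/-- Module Fia (positive proportion). Uses: MainStmt. Proof. MainStmt for max k 3 and δ = 1, P = True (the two filters agree up to the conjunction with True). s = V m. -/
def FiaStmt : Prop :=
  ∀ k : ℕ, ∃ c : ℝ, 0 < c ∧ ∃ X0 : ℝ, ∀ X : ℕ, X0 ≤ X →
    c * X ≤ (({a : ℕ | 1 ≤ a ∧ a ≤ X ∧ ∃ s : ℕ, 1 ≤ s ∧
      (s : ℝ) ≤ Real.exp ((Real.log (Real.log X)) ^ 6) ∧ StQ k X (a * s)}.ncard : ℕ) : ℝ)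

open Classical in
/-- Module Fib (almost all primes). Uses: MainStmt. Proof. MainStmt for max k 3 and δ, P n = ¬ StQ k X n (X fixed). Suppose that for all m ∈ Bm the number of the b with V b m + 1 prime and ¬ StQ k X (V b m) is ≥ δ times the number of the b with V b m + 1 prime. Then there are (X large, c X > 0) b ≤ X, m ∈ Bm and r with
V b m r^i + 1 prime and P(V b m r^i) for all i < max k 3; i = 0: ¬ StQ k X (V b m), but r proves StQ k X (V b m). Contradiction. So for some m ∈ Bm (Q = V m) the number is < δ times the number of primes. -/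
def FibStmt : Prop :=
  ∀ (k : ℕ) (δ : ℝ), 0 < δ → ∃ X0 : ℝ, ∀ X : ℕ, X0 ≤ X → ∃ Q : ℕ, 1 ≤ Q ∧
    (Q : ℝ) ≤ Real.exp ((Real.log (Real.log X)) ^ 6) ∧
    (1 / 4 : ℝ) * (X / Real.log X) ≤ (((Icc 1 X).filter (fun b => (Q * b + 1).Prime)).card : ℝ) ∧
    (((Icc 1 X).filter (fun b => (Q * b + 1).Prime ∧ ¬ StQ k X (Q * b))).card : ℝ) ≤
      δ * (((Icc 1 X).filter (fun b => (Q * b + 1).Prime)).card : ℝ)

end Pool.Agent.Lib.MP_9f2731_nt.QL.Aw
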