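import Pool.Agent.Lib.MP_9f2731_nt.QL.Aw.Spec

/-!
MP_9f2731_nt, QL/Aw, module Box: the boxes.
-/

namespace Pool.Agent.Lib.MP_9f2731_nt.QL.Aw

open Finset
open Pool.Agent.Lib.MP_9f2731_nt.GP
open Pool.Agent.Lib.MP_9f2731_nt.GP.Rel
open Pool.Agent.Lib.MP_9f2731_nt.GP.Asm (eb)
open Pool.Agent.Lib.MP_9f2731_nt.QL

private theorem box_card (M h : ℕ) [NeZero M] (hh : h ≤ M) :
    (univ.filter (fun z : ZMod M => z.val < h)).card = h := by
  have h1 : (univ.filter (fun z : ZMod M => z.val < h)).image ZMod.val = range h := by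
    ext n
    rw [mem_image, mem_range]
    constructor
    · rintro ⟨z, hz, rfl⟩
      exact (mem_filter.1 hz).2
    · intro hn
      have h2 : ((n : ℕ) : ZMod M).val = n := ZMod.val_cast_of_lt (hn.trans_le hh)
      exact ⟨n, mem_filter.2 ⟨mem_univ _, by rw [h2]; exact hn⟩, h2⟩
  have h3 := congrArg Finset.card h1
  rwa [card_image_of_injective _ (ZMod.val_injective M), card_range] at h3

/-- Module Box. -/
theorem pBox : BoxStmt := by
  intro T M h _ hh
  constructor
  · have h1 : Xb T M h = Fintype.piFinset (fun _ => univ.filter (fun z : ZMod M => z.val < h)) := by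
      ext x
      simp [Xb, Fintype.mem_piFinset]
    rw [h1, Fintype.card_piFinset, Finset.prod_const, box_card M h hh, card_univ, Fintype.card_fin]
  · intro hM n hn hnM
    have : Fact M.Prime := ⟨hM⟩
    intro x y hxy
    funext j
    have h1 : n • x j = n • y j := congrFun hxy j
    rw [nsmul_eq_mul, nsmul_eq_mul] at h1
    refine mul_left_cancel₀ ?_ h1
    rw [Ne, ZMod.natCast_eq_zero_iff]
    exact fun h2 => absurd (Nat.le_of_dvd hn h2) (not_le.2 hnM)

end Pool.Agent.Lib.MP_9f2731_nt.QL.Aw
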