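import Pool.Agent.Lib.MP_9f2731_nt.QL.Aw.Spec

/-!
MP_9f2731_nt, QL/Aw, module Prc: the number of primes.
-/

namespace Pool.Agent.Lib.MP_9f2731_nt.QL.Aw

open Finset
open Pool.Agent.Lib.MP_9f2731_nt.GP
open Pool.Agent.Lib.MP_9f2731_nt.GP.Rel
open Pool.Agent.Lib.MP_9f2731_nt.GP.Asm (eb)
open Pool.Agent.Lib.MP_9f2731_nt.QL

/-- Module Prc. -/
theorem pPrc : PrcStmt := by
  have h1 : ∀ᶠ x : ℝ in Filter.atTop, ‖Real.log x‖ ≤ 1 / 8 * ‖x ^ (1 / 2 : ℝ)‖ :=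
    (isLittleO_log_rpow_atTop (by norm_num : (0 : ℝ) < 1 / 2)).def (by norm_num)
  obtain ⟨x0, hx0⟩ := Filter.eventually_atTop.1 h1
  refine ⟨⌈x0⌉₊ + 2, fun w hw => ?_⟩
  have hw2 : 2 ≤ w := by omega
  have hwx : x0 ≤ (w : ℝ) := by
    have h2 : (⌈x0⌉₊ : ℝ) ≤ w := by exact_mod_cast (by omega : ⌈x0⌉₊ ≤ w)
    exact (Nat.le_ceil x0).trans h2
  have hw2' : (2 : ℝ) ≤ w := by exact_mod_cast hw2
  have key : ∀ y : ℝ, x0 ≤ y → 1 ≤ y → Real.log y ≤ 1 / 8 * Real.sqrt y := by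
    intro y hy hy1
    have h3 := hx0 y hy
    rw [Real.norm_of_nonneg (Real.log_nonneg hy1), ← Real.sqrt_eq_rpow,
      Real.norm_of_nonneg (Real.sqrt_nonneg y)] at h3
    exact h3
  have k1 := key w hwx (by linarith)
  have k2 := key (w + 1) (by linarith) (by linarith)
  have hs : Real.sqrt w * Real.sqrt w = w := Real.mul_self_sqrt (by linarith)
  have hs0 : 0 ≤ Real.sqrt w := Real.sqrt_nonneg _
  have hs1 : Real.sqrt (w + 1) ≤ w + 1 := by
    rw [Real.sqrt_le_left (by linarith)]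
    nlinarith
  have hl : 0 < Real.log (w : ℝ) := Real.log_pos (by linarith)
  have hl2 := Real.log_two_gt_d9
  have h4 := Chebyshev.pi_ge w
  have h5 : Real.sqrt w ≤ (w * Real.log 2 - Real.log (w + 1)) / Real.log w := by
    rw [le_div_iff₀ hl]
    have h6 : Real.sqrt w * Real.log w ≤ Real.sqrt w * (1 / 8 * Real.sqrt w) :=
      mul_le_mul_of_nonneg_left k1 hs0
    nlinarith
  have h7 : ((range (w + 1)).filter Nat.Prime).card = Nat.primeCounting w := by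
    rw [Nat.primeCounting, Nat.primeCounting', Nat.count_eq_card_filter_range]
  rw [h7]
  exact h5.trans h4

end Pool.Agent.Lib.MP_9f2731_nt.QL.Aw
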